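import Pool.Agent.Helper24.LU.Co
import Pool.Agent.Helper65.LU.Pi

/-!
# pi and the ratios of Gamma values (MP_274814_nt): the matroid part
-/

set_option autoImplicit false

namespace Pool.Agent.Helper17.LR

open Set Pool.Agent.Helper24.LU

/-- Closures of subfamilies of an independent family meet in the closure of the common part. -/
theorem inter_cl {ι : Type*} (B : ι → ℂ) (h : AlgebraicIndependent ℚ B) (z : ℂ) (I J : Set ι)
    (hI : IsAlgebraic (Algebra.adjoin ℚ (B '' I)) z)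
    (hJ : IsAlgebraic (Algebra.adjoin ℚ (B '' J)) z) :
    IsAlgebraic (Algebra.adjoin ℚ (B '' (I ∩ J))) z := by
  have h1 : (AlgebraicIndependent.matroid ℚ ℂ).Indep (B '' I ∪ B '' J) := by
    have h2 := h.coe_range
    exact (AlgebraicIndependent.matroid_indep_iff.2 h2).subset
      (union_subset (image_subset_range _ _) (image_subset_range _ _))
  have h3 : B '' (I ∩ J) = B '' I ∩ B '' J := image_inter h.injective
  have h5 : z ∈ (AlgebraicIndependent.matroid ℚ ℂ).closure (B '' I) ∩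
      (AlgebraicIndependent.matroid ℚ ℂ).closure (B '' J) := by
    rw [AlgebraicIndependent.matroid_closure_eq, AlgebraicIndependent.matroid_closure_eq]
    refine ⟨?_, ?_⟩
    · rw [SetLike.mem_coe, Subalgebra.mem_algebraicClosure]
      exact hI
    · rw [SetLike.mem_coe, Subalgebra.mem_algebraicClosure]
      exact hJ
  rw [← h1.closure_inter_eq_inter_closure, ← h3, AlgebraicIndependent.matroid_closure_eq,
    SetLike.mem_coe, Subalgebra.mem_algebraicClosure] at h5
  exact h5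

theorem cl_mono {ι : Type*} (B : ι → ℂ) (z : ℂ) {I J : Set ι} (hIJ : I ⊆ J)
    (hI : IsAlgebraic (Algebra.adjoin ℚ (B '' I)) z) :
    IsAlgebraic (Algebra.adjoin ℚ (B '' J)) z := by
  have hle : Algebra.adjoin ℚ (B '' I) ≤ Algebra.adjoin ℚ (B '' J) :=
    Algebra.adjoin_mono (image_mono hIJ)
  have h5 : z ∈ (AlgebraicIndependent.matroid ℚ ℂ).closure (B '' I) := by
    rw [AlgebraicIndependent.matroid_closure_eq, SetLike.mem_coe, Subalgebra.mem_algebraicClosure]
    exact hI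
  have h6 := (AlgebraicIndependent.matroid ℚ ℂ).closure_subset_closure (image_mono hIJ) h5
  rw [AlgebraicIndependent.matroid_closure_eq, SetLike.mem_coe,
    Subalgebra.mem_algebraicClosure] at h6
  exact h6

theorem cl_empty {ι : Type*} (B : ι → ℂ) (z : ℂ)
    (h : IsAlgebraic (Algebra.adjoin ℚ (B '' (∅ : Set ι))) z) : IsAlgebraic ℚ z := by
  rw [image_empty, Algebra.adjoin_empty ℚ ℂ] at h
  exact Subalgebra.isAlgebraic_of_isAlgebraic_bot h

theorem pi_tr : ¬ IsAlgebraic ℚ (Real.pi : ℂ) := by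
  intro h
  exact Pool.Agent.Helper65.LU.Pi.transcendental_pi
    ((isAlgebraic_algebraMap_iff (R := ℚ) (S := ℝ) (A := ℂ) Complex.ofReal_injective).1 h)

/-- `Γ (a / q)` is algebraic over `π` and the ratio. -/
theorem gam_alg' (K : IntermediateField ℚ ℂ) (q a : ℕ) (h1 : 1 ≤ a) (h2 : a < q)
    (hpi : (Real.pi : ℂ) ∈ K) (hR : IsAlgebraic K ((Rr q a : ℝ) : ℂ)) :
    IsAlgebraic K ((Real.Gamma ((a : ℝ) / q) : ℝ) : ℂ) := by
  have hqr : (0 : ℝ) < q := by exact_mod_cast (by omega : 0 < q)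
  have hcr : (0 : ℝ) < a := by exact_mod_cast h1
  have hcq : (a : ℝ) < q := by exact_mod_cast h2
  have hlt : (a : ℝ) / q < 1 := by rw [div_lt_one hqr]; exact hcq
  have hsin : IsAlgebraic ℚ (Real.sin (Real.pi * ((a : ℝ) / q))) := by
    have h3 := Real.isAlgebraic_sin_rat_mul_pi ((a : ℚ) / q)
    have h4 : ((((a : ℚ) / q : ℚ) : ℝ) * Real.pi) = Real.pi * ((a : ℝ) / q) := by
      push_cast; ring
    rw [h4] at h3
    exact h3.extendScalars (FaithfulSMul.algebraMap_injective ℤ ℚ)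
  have hrefl := Real.Gamma_mul_Gamma_one_sub ((a : ℝ) / q)
  have hG2 : Real.Gamma (1 - (a : ℝ) / q) ≠ 0 := (Real.Gamma_pos_of_pos (by linarith)).ne'
  have hkey : Real.Gamma ((a : ℝ) / q) ^ 2 =
      Rr q a * (Real.pi * (Real.sin (Real.pi * ((a : ℝ) / q)))⁻¹) := by
    have h3 : Real.pi * (Real.sin (Real.pi * ((a : ℝ) / q)))⁻¹ =
        Real.Gamma ((a : ℝ) / q) * Real.Gamma (1 - (a : ℝ) / q) := by
      rw [hrefl]
      exact (div_eq_mul_inv _ _).symm
    rw [h3]
    unfold Rr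
    revert hG2
    generalize Real.Gamma (1 - (a : ℝ) / q) = G2
    generalize Real.Gamma ((a : ℝ) / q) = G1
    intro hG2
    field_simp
  have e1 : IsAlgebraic K (((Real.sin (Real.pi * ((a : ℝ) / q)) : ℝ) : ℂ)) :=
    Pool.Agent.Helper24.GammaTr.isAlg_of_alg K hsin
  have e2 : IsAlgebraic K ((Real.pi : ℝ) : ℂ) := Pool.Agent.Helper24.GammaTr.isAlg_of_mem _ hpi
  have e4 := hR.mul (e2.mul e1.inv)
  have e5 : ((Real.Gamma ((a : ℝ) / q) : ℝ) : ℂ) ^ 2 = ((Rr q a : ℝ) : ℂ) *
      (((Real.pi : ℝ) : ℂ) * (((Real.sin (Real.pi * ((a : ℝ) / q)) : ℝ) : ℂ))⁻¹) := by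
    exact_mod_cast congrArg (fun x : ℝ => (x : ℂ)) hkey
  exact IsAlgebraic.of_pow (n := 2) (by norm_num) (e5 ▸ e4)

/-- the Gamma family -/
noncomputable def gf {ι : Type*} (q : ℕ) (a : ι → ℕ) : Option ι → ℝ :=
  fun o => o.elim Real.pi fun i => Real.Gamma ((a i : ℕ) / q)

/-- the ratio family -/
noncomputable def rf {ι : Type*} (q : ℕ) (a : ι → ℕ) : Option ι → ℂ :=
  fun o => o.elim (Real.pi : ℂ) fun i => ((Rr q (a i) : ℝ) : ℂ)

theorem gf_iff_rf {ι : Type*} [Finite ι] (q : ℕ) (a : ι → ℕ) (ha : ∀ i, 1 ≤ a i ∧ a i < q) :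
    AlgebraicIndependent ℚ (gf q a) ↔ AlgebraicIndependent ℚ (rf q a) := by
  have := Fintype.ofFinite ι
  rw [← real_iff]
  have hcast : ∀ i, ((Real.Gamma ((a i : ℕ) / q) : ℝ) : ℂ) = Complex.Gamma ((a i : ℂ) / q) := by
    intro i
    rw [← Complex.Gamma_ofReal]
    push_cast
    rfl
  constructor
  · intro h
    refine indep_of_card (rf q a) (fun o => ((gf q a o : ℝ) : ℂ)) ?_
      (fun k => (Fintype.equivFin (Option ι)).symm k) (h.comp _ (Equiv.injective _))
    intro o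
    apply alg_adjoin
    set K := IntermediateField.adjoin ℚ (range (rf q a)) with hK
    have hpi : (Real.pi : ℂ) ∈ K := IntermediateField.subset_adjoin ℚ _ ⟨none, rfl⟩
    rcases o with _ | i
    · exact Pool.Agent.Helper24.GammaTr.isAlg_of_mem _ hpi
    · exact gam_alg' K q (a i) (ha i).1 (ha i).2 hpi (Pool.Agent.Helper24.GammaTr.isAlg_of_mem _
        (IntermediateField.subset_adjoin ℚ _ ⟨some i, rfl⟩))
  · intro h
    refine indep_of_card (fun o => ((gf q a o : ℝ) : ℂ)) (rf q a) ?_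
      (fun k => (Fintype.equivFin (Option ι)).symm k) (h.comp _ (Equiv.injective _))
    intro o
    apply alg_adjoin
    set K := IntermediateField.adjoin ℚ (range fun o => ((gf q a o : ℝ) : ℂ)) with hK
    have hpi : (Real.pi : ℂ) ∈ K := IntermediateField.subset_adjoin ℚ _ ⟨none, rfl⟩
    rcases o with _ | i
    · exact Pool.Agent.Helper24.GammaTr.isAlg_of_mem _ hpi
    · refine Rr_alg_of_mem K q (a i) (ha i).1 (ha i).2 hpi ?_
      rw [← hcast]
      exact IntermediateField.subset_adjoin ℚ _ ⟨some i, rfl⟩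

/-- `π` with an independent family of ratios. -/
theorem rf_iff {ι : Type*} (q : ℕ) (a : ι → ℕ)
    (h : AlgebraicIndependent ℚ (fun i => ((Rr q (a i) : ℝ) : ℂ))) :
    AlgebraicIndependent ℚ (rf q a) ↔
      ¬ IsAlgebraic (Algebra.adjoin ℚ (range fun i => ((Rr q (a i) : ℝ) : ℂ))) (Real.pi : ℂ) :=
  h.option_iff_transcendental _

end Pool.Agent.Helper17.LR
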