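import Pool.Agent.Helper17.LR.Hq
import Pool.Agent.Helper17.LR.Ma

/-!
# pi and the ratios of Gamma values (MP_274814_nt): from linear to algebraic independence
-/

set_option autoImplicit false

namespace Pool.Agent.Helper17.LR

open Set Module Pool.Agent.Helper24.LU Pool.Agent.Helper24.GammaTr

/-- the classes of the ratios modulo logarithms of algebraic numbers -/
noncomputable def hv (q : ℕ) (a : ZMod q) : ℝ ⧸ CC ⊥ := H ⊥ ((a.val : ℚ) / q)

theorem OD_hv (q : ℕ) [NeZero q] : OD q (hv q) := OD_of (H_dist ⊥) q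

theorem hv_zero (q : ℕ) [NeZero q] : hv q 0 = 0 := by
  unfold hv H
  rw [ZMod.val_zero, Nat.cast_zero, zero_div, Int.fract_zero, if_pos rfl]

/-- the ratio -/
noncomputable def Rz (q : ℕ) (a : ZMod q) : ℂ := ((Rr q a.val : ℝ) : ℂ)

theorem CC_le (K : IntermediateField ℚ ℂ) : CC ⊥ ≤ CC K := by
  intro x hx
  change IsAlgebraic (⊥ : IntermediateField ℚ ℂ) ((Real.exp x : ℝ) : ℂ) at hx
  change IsAlgebraic K ((Real.exp x : ℝ) : ℂ)
  have h1 : IsAlgebraic ℚ ((Real.exp x : ℝ) : ℂ) := hx.restrictScalars ℚ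
  exact h1.tower_top K

/-- the change of the ground field -/
noncomputable def qm (K : IntermediateField ℚ ℂ) : (ℝ ⧸ CC ⊥) →ₗ[ℚ] (ℝ ⧸ CC K) :=
  Submodule.mapQ (CC ⊥) (CC K) LinearMap.id (CC_le K)

theorem qm_H (K : IntermediateField ℚ ℂ) (x : ℚ) : qm K (H ⊥ x) = H K x := by
  unfold H qm
  split_ifs with h
  · rw [map_zero]
  · rfl

theorem alg_of_span (q : ℕ) [NeZero q] (S : Set (ZMod q)) (a : ZMod q) (ha : a ≠ 0)
    (hS : ∀ b ∈ S, b ≠ 0) (h : hv q a ∈ Submodule.span ℚ (hv q '' S))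
    (K : IntermediateField ℚ ℂ) (hK : ∀ b ∈ S, IsAlgebraic K (Rz q b)) :
    IsAlgebraic K (Rz q a) := by
  have hpos : ∀ b : ZMod q, b ≠ 0 → 1 ≤ b.val := by
    intro b hb
    have := (ZMod.val_ne_zero b).2 hb
    omega
  have h1 : Submodule.span ℚ (hv q '' S) ≤ LinearMap.ker (qm K) := by
    rw [Submodule.span_le]
    rintro _ ⟨b, hb, rfl⟩
    rw [SetLike.mem_coe, LinearMap.mem_ker]
    unfold hv
    rw [qm_H]
    exact (H_zero_iff K b.val q (hpos b (hS b hb)) (ZMod.val_lt b)).2 (hK b hb)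
  have h2 := h1 h
  rw [LinearMap.mem_ker] at h2
  unfold hv at h2
  rw [qm_H] at h2
  exact (H_zero_iff K a.val q (hpos a ha) (ZMod.val_lt a)).1 h2

theorem ne_zero_of_lin {q : ℕ} [NeZero q] {M : Type*} [AddCommGroup M] [Module ℚ M]
    {v : ZMod q → M} (hv0 : v 0 = 0) {S : Set (ZMod q)} (hS : LinearIndepOn ℚ v S) :
    ∀ b ∈ S, b ≠ 0 := by
  rintro b hb rfl
  exact hS.ne_zero hb hv0

theorem rank_ge (q n : ℕ) [NeZero q] (h : HasInd q n) :
    n ≤ finrank ℚ (Submodule.span ℚ (range (hv q))) := by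
  classical
  obtain ⟨b, -, -, hspan, hli⟩ := exists_linearIndepOn_extension
    (linearIndepOn_empty ℚ (hv q)) (empty_subset (univ : Set (ZMod q)))
  have hb0 : ∀ x ∈ b, x ≠ 0 := ne_zero_of_lin (hv_zero q) hli
  have hsp : Submodule.span ℚ (range (hv q)) = Submodule.span ℚ (hv q '' b) := by
    apply le_antisymm
    · rw [Submodule.span_le]
      rw [← image_univ]
      exact hspan
    · exact Submodule.span_mono (image_subset_range _ _)
  set K := IntermediateField.adjoin ℚ (Rz q '' b) with hK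
  have halg : ∀ a : ZMod q, a ≠ 0 → IsAlgebraic K (Rz q a) := by
    intro a ha
    refine alg_of_span q b a ha hb0 (hspan ⟨a, mem_univ a, rfl⟩) K ?_
    intro c hc
    exact isAlg_of_mem K (IntermediateField.subset_adjoin ℚ _ ⟨c, hc, rfl⟩)
  have h1 : (n : Cardinal) ≤ Algebra.trdeg ℚ K := by
    apply h.trdeg_le K
    intro a h1 h2
    have h3 := halg (a : ZMod q) (by
      intro h3
      rw [ZMod.natCast_eq_zero_iff] at h3
      exact absurd (Nat.le_of_dvd h1 h3) (by omega))
    unfold Rz at h3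
    rwa [ZMod.val_cast_of_lt h2] at h3
  have h2 : Algebra.trdeg ℚ K ≤ Cardinal.mk (Rz q '' b) :=
    trdeg_le_of_alg K (Rz q '' b) (fun z hz => isAlg_of_mem _ hz)
  have h3 : Cardinal.mk (Rz q '' b) ≤ Cardinal.mk b := Cardinal.mk_image_le
  have h4 : (n : Cardinal) ≤ Cardinal.mk b := h1.trans (h2.trans h3)
  have : Fintype b := Fintype.ofFinite b
  rw [Cardinal.mk_fintype, Nat.cast_le] at h4
  rw [hsp, image_eq_range]
  have h5 := finrank_span_eq_card hli
  rw [h5]
  exact h4

/-- If `φ(q) / 2` ratios of level `q` are algebraically independent then every linear dependence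
between the classes of the ratios comes from the distribution relations, so it holds for the
Bernoulli distribution. -/
theorem hv_lin (q : ℕ) [NeZero q] (hq : 2 < q) (h : HasInd q (q.totient / 2)) (S : Set (ZMod q))
    (hS : LinearIndepOn ℚ (bv q) S) : LinearIndepOn ℚ (hv q) S := by
  classical
  set P : ZMod q → (ℝ ⧸ CC ⊥) × ((ZMod q)ˣ → ℚ) := fun a => (hv q a, bv q a) with hP
  have hOD : OD q P := (OD_hv q).prod (OD_bv q)
  have hr := rank_OD q hq P hOD
  set Q := Submodule.span ℚ (range P) with hQ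
  have hfin : FiniteDimensional ℚ Q := FiniteDimensional.span_of_finite ℚ (Set.finite_range _)
  have hmem : ∀ a, P a ∈ Q := fun a => Submodule.subset_span ⟨a, rfl⟩
  set L : Q →ₗ[ℚ] (ℝ ⧸ CC ⊥) := (LinearMap.fst ℚ (ℝ ⧸ CC ⊥) ((ZMod q)ˣ → ℚ)).comp Q.subtype
    with hL
  have hrange : Submodule.span ℚ (range (hv q)) ≤ LinearMap.range L := by
    rw [Submodule.span_le]
    rintro _ ⟨a, rfl⟩
    exact ⟨⟨P a, hmem a⟩, rfl⟩
  have hge := rank_ge q _ h
  have h1 := LinearMap.finrank_range_add_finrank_ker L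
  have h2 := Submodule.finrank_mono hrange
  have h3 : finrank ℚ (LinearMap.ker L) = 0 := by omega
  have h4 : LinearMap.ker L = ⊥ := Submodule.finrank_eq_zero.1 h3
  have h5 : LinearIndependent ℚ (fun a : S => (⟨P a, hmem a⟩ : Q)) := by
    have h6 : LinearIndependent ℚ (fun a : S => bv q a) := hS
    exact LinearIndependent.of_comp
      ((LinearMap.snd ℚ (ℝ ⧸ CC ⊥) ((ZMod q)ˣ → ℚ)).comp Q.subtype) h6
  exact h5.map' L h4

/-- Linear independence of the classes gives algebraic independence of the ratios. -/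
theorem indep_of_hv (q : ℕ) [NeZero q] (hq : 2 < q) (h : HasInd q (q.totient / 2))
    (S : Set (ZMod q)) (hS : LinearIndepOn ℚ (hv q) S) :
    AlgebraicIndependent ℚ (fun a : S => Rz q a) := by
  classical
  obtain ⟨b, -, hSb, hspan, hli⟩ := exists_linearIndepOn_extension hS (subset_univ S)
  have hb0 : ∀ x ∈ b, x ≠ 0 := ne_zero_of_lin (hv_zero q) hli
  have : Fintype b := Fintype.ofFinite b
  have hcard : Fintype.card b ≤ q.totient / 2 := by
    have hfin : FiniteDimensional ℚ (Submodule.span ℚ (range (hv q))) :=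
      FiniteDimensional.span_of_finite ℚ (Set.finite_range _)
    have h5 := finrank_span_eq_card hli
    rw [← h5]
    refine (Submodule.finrank_mono (Submodule.span_mono ?_)).trans (rank_OD q hq (hv q) (OD_hv q))
    rintro _ ⟨a, rfl⟩
    exact ⟨a, rfl⟩
  obtain ⟨f, hf⟩ := h.mono hcard
  have h1 : AlgebraicIndependent ℚ (fun a : b => Rz q a) := by
    refine indep_of_card _ (fun a : {a : ℕ // 1 ≤ a ∧ a < q} => ((Rr q a : ℝ) : ℂ)) ?_ f
      (real_iff.2 hf)
    intro a
    apply alg_adjoin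
    set K := IntermediateField.adjoin ℚ (range fun a : b => Rz q a) with hK
    have h3 := alg_of_span q b ((a : ℕ) : ZMod q) (by
      intro h3
      rw [ZMod.natCast_eq_zero_iff] at h3
      exact absurd (Nat.le_of_dvd a.2.1 h3) (by have := a.2.2; omega)) hb0
      (hspan ⟨((a : ℕ) : ZMod q), mem_univ _, rfl⟩) K (by
        intro c hc
        exact isAlg_of_mem K (IntermediateField.subset_adjoin ℚ _ ⟨⟨c, hc⟩, rfl⟩))
    unfold Rz at h3
    rwa [ZMod.val_cast_of_lt a.2.2] at h3
  exact h1.comp (fun a : S => (⟨a, hSb a.2⟩ : b)) (by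
    intro x y hxy
    exact Subtype.ext (congrArg (fun z : b => (z : ZMod q)) hxy))

/-- Linear independence of the Bernoulli vectors gives algebraic independence of the ratios. -/
theorem indep_of_lin (q : ℕ) [NeZero q] (hq : 2 < q) (h : HasInd q (q.totient / 2))
    (S : Set (ZMod q)) (hS : LinearIndepOn ℚ (bv q) S) :
    AlgebraicIndependent ℚ (fun a : S => Rz q a) :=
  indep_of_hv q hq h S (hv_lin q hq h S hS)

end Pool.Agent.Helper17.LR
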