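import Pool.Agent.Helper17.LR.Pi
import Pool.Agent.Helper32.LU.Tb

/-!
# pi and the ratios of Gamma values (MP_274814_nt): pairs
-/

set_option autoImplicit false

namespace Pool.Agent.Helper17.LR

open Set Module Pool.Agent.Helper24.LU Pool.Agent.Helper24.GammaTr
open Pool.Agent.Helper32.LU (Lp Lf)

/-- `2 N ({u a / N} - 1/2)` -/
def bn (N u a : ℕ) : ℤ := 2 * ((u * a) % N : ℕ) - N

/-- no two different classes `a < b < N / 2` are proportional, except `N / 6` and `N / 3` -/
def chk (N : ℕ) : Bool := (List.range N).all fun b => (List.range b).all fun a =>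
  (a == 0) || (decide (N ≤ 2 * b)) || ((6 * a == N) && (3 * b == N)) ||
  (List.range N).any fun u => (Nat.gcd u N == 1) &&
    (decide (bn N 1 a * bn N u b ≠ bn N u a * bn N 1 b))

theorem chk_ok : Lf.all chk = true := by decide +kernel

theorem chk_spec {N : ℕ} (hN : N ∈ Lf) {a b : ℕ} (ha : 1 ≤ a) (hab : a < b) (hb : 2 * b < N)
    (h63 : ¬ (6 * a = N ∧ 3 * b = N)) :
    ∃ u : ℕ, u.Coprime N ∧ bn N 1 a * bn N u b ≠ bn N u a * bn N 1 b := by
  have h1 := List.all_eq_true.1 chk_ok _ hN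
  unfold chk at h1
  rw [List.all_eq_true] at h1
  have h2 := h1 b (List.mem_range.2 (by omega))
  rw [List.all_eq_true] at h2
  have h3 := h2 a (List.mem_range.2 hab)
  simp only [Bool.or_eq_true, Bool.and_eq_true, beq_iff_eq, decide_eq_true_eq,
    List.any_eq_true, List.mem_range] at h3
  rcases h3 with ((h3 | h3) | h3) | ⟨u, -, hu1, hu2⟩
  · omega
  · omega
  · exact absurd h3 h63
  · exact ⟨u, hu1, hu2⟩

theorem pair_li {N : ℕ} (hN : N ∈ Lf) {a b : ℕ} (ha : 1 ≤ a) (hab : a < b) (hb : 2 * b < N)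
    (h63 : ¬ (6 * a = N ∧ 3 * b = N)) :
    LinearIndependent ℚ (fun (i : Fin 2) (u : {u : ℕ // u.Coprime N}) =>
      Int.fract (((u : ℕ) : ℚ) * ((![a, b] : Fin 2 → ℕ) i : ℚ) / N) - 1 / 2) := by
  have hN0 : (N : ℚ) ≠ 0 := by
    have : N ≠ 0 := by omega
    exact_mod_cast this
  obtain ⟨u, hu, hdet⟩ := chk_spec hN ha hab hb h63
  have hval : ∀ u x : ℕ, Int.fract ((u : ℚ) * (x : ℚ) / N) - 1 / 2 =
      (bn N u x : ℚ) / (2 * N) := by
    intro u x
    have e : (bn N u x : ℚ) = 2 * ((u * x % N : ℕ) : ℚ) - N := by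
      unfold bn
      rw [Int.cast_sub, Int.cast_mul, Int.cast_ofNat, Int.cast_natCast, Int.cast_natCast]
    rw [← Nat.cast_mul, Int.fract_div_natCast_eq_div_natCast_mod, e]
    field_simp
  have h1 : (fun (i : Fin 2) (u : {u : ℕ // u.Coprime N}) =>
      Int.fract (((u : ℕ) : ℚ) * ((![a, b] : Fin 2 → ℕ) i : ℚ) / N) - 1 / 2) =
      ![fun u : {u : ℕ // u.Coprime N} => (bn N u a : ℚ) / (2 * N),
        fun u : {u : ℕ // u.Coprime N} => (bn N u b : ℚ) / (2 * N)] := by
    funext i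
    fin_cases i
    · funext u
      exact hval u a
    · funext u
      exact hval u b
  rw [h1, LinearIndependent.pair_iff]
  intro s t hst
  have e1 := congrFun hst ⟨1, Nat.coprime_one_left N⟩
  have e2 := congrFun hst ⟨u, hu⟩
  simp only [Pi.add_apply, Pi.smul_apply, smul_eq_mul, Pi.zero_apply] at e1 e2
  have f1 : s * bn N 1 a + t * bn N 1 b = 0 := by
    field_simp at e1
    linear_combination e1
  have f2 : s * bn N u a + t * bn N u b = 0 := by
    field_simp at e2
    linear_combination e2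
  have hd : ((bn N 1 a * bn N u b - bn N u a * bn N 1 b : ℤ) : ℚ) ≠ 0 := by
    exact_mod_cast sub_ne_zero.2 hdet
  push_cast at hd
  constructor
  · have h2 : s * ((bn N 1 a : ℚ) * bn N u b - bn N u a * bn N 1 b) = 0 := by
      linear_combination (bn N u b : ℚ) * f1 - (bn N 1 b : ℚ) * f2
    exact (mul_eq_zero.1 h2).resolve_right hd
  · have h2 : t * ((bn N 1 a : ℚ) * bn N u b - bn N u a * bn N 1 b) = 0 := by
      linear_combination (bn N 1 a : ℚ) * f2 - (bn N u a : ℚ) * f1
    exact (mul_eq_zero.1 h2).resolve_right hd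

/-- `π` and the `Γ (a / N)`, `a ∈ S` -/
noncomputable def pg (N : ℕ) (S : Finset ℕ) : Option S → ℝ :=
  fun o => o.elim Real.pi fun a => Real.Gamma ((a : ℕ) / N)

/-- Disjoint families. -/
theorem two_sets {N : ℕ} (h2 : 2 < N) (h : HasInd N (N.totient / 2)) (I J : Finset ℕ)
    (hIJ : Disjoint I J) (ha : ∀ a ∈ I ∪ J, 1 ≤ a ∧ a < N)
    (hli : LinearIndependent ℚ (fun (a : (I ∪ J : Finset ℕ)) (u : {u : ℕ // u.Coprime N}) =>
      Int.fract (((u : ℕ) : ℚ) * ((a : ℕ) : ℚ) / N) - 1 / 2)) :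
    AlgebraicIndependent ℚ (pg N I) ∨ AlgebraicIndependent ℚ (pg N J) := by
  classical
  have h1 := indep_fam N h2 h (fun a : (I ∪ J : Finset ℕ) => (a : ℕ)) (fun a => ha a a.2) hli
  have h3 := pi_or N (fun a : (I ∪ J : Finset ℕ) => (a : ℕ)) (fun a => ha a a.2) h1
    {a | (a : ℕ) ∈ I} {a | (a : ℕ) ∈ J} (by
      rw [Set.disjoint_left]
      intro a h4 h5
      exact Finset.disjoint_left.1 hIJ h4 h5)
  rcases h3 with h3 | h3
  · left
    have h4 := h3.comp (Option.map fun a : I =>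
      (⟨⟨(a : ℕ), Finset.mem_union_left _ a.2⟩, a.2⟩ :
        {a : (I ∪ J : Finset ℕ) | (a : ℕ) ∈ I})) (Option.map_injective (by
          intro x y hxy
          exact Subtype.ext (congrArg
            (fun z : {a : (I ∪ J : Finset ℕ) | (a : ℕ) ∈ I} => ((z.1 : ℕ))) hxy)))
    convert h4 using 1
    funext o
    cases o <;> rfl
  · right
    have h4 := h3.comp (Option.map fun a : J =>
      (⟨⟨(a : ℕ), Finset.mem_union_right _ a.2⟩, a.2⟩ :
        {a : (I ∪ J : Finset ℕ) | (a : ℕ) ∈ J})) (Option.map_injective (by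
          intro x y hxy
          exact Subtype.ext (congrArg
            (fun z : {a : (I ∪ J : Finset ℕ) | (a : ℕ) ∈ J} => ((z.1 : ℕ))) hxy)))
    convert h4 using 1
    funext o
    cases o <;> rfl

/-- At most one exception. -/
theorem two_values {N : ℕ} (hN : N ∈ Lf) (h2 : 2 < N) (h : HasInd N (N.totient / 2)) {a b : ℕ}
    (ha : 1 ≤ a) (hab : a < b) (hb : 2 * b < N) (h63 : ¬ (6 * a = N ∧ 3 * b = N)) :
    AlgebraicIndependent ℚ ![Real.pi, Real.Gamma ((a : ℝ) / N)] ∨
      AlgebraicIndependent ℚ ![Real.pi, Real.Gamma ((b : ℝ) / N)] := by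
  have hr : ∀ i : Fin 2, 1 ≤ (![a, b] : Fin 2 → ℕ) i ∧ (![a, b] : Fin 2 → ℕ) i < N := by
    intro i
    fin_cases i
    · exact ⟨ha, by change a < N; omega⟩
    · exact ⟨by change 1 ≤ b; omega, by change b < N; omega⟩
  have h1 := indep_fam N h2 h ![a, b] hr (pair_li hN ha hab hb h63)
  have h3 := pi_or N ![a, b] hr h1 {0} {1} (by simp)
  rcases h3 with h3 | h3
  · left
    have h4 := h3.comp (![none, some ⟨0, rfl⟩] : Fin 2 → Option ({0} : Set (Fin 2))) (by
      intro i j hij
      fin_cases i <;> fin_cases j <;> simp_all)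
    convert h4 using 1
    funext i
    fin_cases i <;> simp [gf]
  · right
    have h4 := h3.comp (![none, some ⟨1, rfl⟩] : Fin 2 → Option ({1} : Set (Fin 2))) (by
      intro i j hij
      fin_cases i <;> fin_cases j <;> simp_all)
    convert h4 using 1
    funext i
    fin_cases i <;> simp [gf]

/-- The primitive numerators below `N / 2`. -/
def PN (N : ℕ) : Finset ℕ := (Finset.range N).filter (fun a => 2 * a < N ∧ a.Coprime N)

/-- The circuit of `π` over the primitive family. -/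
theorem circuit {N : ℕ} (h2 : 2 < N) (hprim : AlgebraicIndependent ℚ (fun a : Pidx N => Rr N a)) :
    AlgebraicIndependent ℚ (pg N (PN N)) ∨ ∃ C ⊆ PN N, C.Nonempty ∧ ∀ I ⊆ PN N,
      (AlgebraicIndependent ℚ (pg N I) ↔ ¬ C ⊆ I) := by
  classical
  have hr : ∀ a : Pidx N, 1 ≤ (a : ℕ) ∧ (a : ℕ) < N := by
    rintro ⟨a, ha⟩
    rw [Finset.mem_filter, Finset.mem_range] at ha
    refine ⟨?_, ha.1⟩
    rcases Nat.eq_zero_or_pos a with h | h
    · rw [h, Nat.coprime_zero_left] at ha
      omega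
    · exact h
  rcases pi_circuit N (fun a : Pidx N => (a : ℕ)) hr (real_iff.2 hprim) with h | ⟨C, hC, h⟩
  · exact Or.inl h
  · right
    refine ⟨(Set.toFinite C).toFinset.image (fun a : Pidx N => (a : ℕ)), ?_, ?_, ?_⟩
    · intro x hx
      rw [Finset.mem_image] at hx
      obtain ⟨a, -, rfl⟩ := hx
      exact a.2
    · obtain ⟨a, ha⟩ := hC
      exact ⟨a, Finset.mem_image.2 ⟨a, (Set.Finite.mem_toFinset _).2 ha, rfl⟩⟩
    · intro I hI
      have h1 := h {a : Pidx N | (a : ℕ) ∈ I}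
      have e : AlgebraicIndependent ℚ (pg N I) ↔ AlgebraicIndependent ℚ
          (gf N (fun i : {a : Pidx N | (a : ℕ) ∈ I} => ((i : Pidx N) : ℕ))) := by
        let E : I ≃ {a : Pidx N | (a : ℕ) ∈ I} :=
          { toFun := fun a => ⟨⟨a, hI a.2⟩, a.2⟩
            invFun := fun a => ⟨((a : Pidx N) : ℕ), a.2⟩
            left_inv := fun a => rfl
            right_inv := fun a => rfl }
        have h3 := algebraicIndependent_equiv (R := ℚ) (Equiv.optionCongr E)
          (f := gf N (fun i : {a : Pidx N | (a : ℕ) ∈ I} => ((i : Pidx N) : ℕ)))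
        rw [← h3]
        have h4 : (gf N (fun i : {a : Pidx N | (a : ℕ) ∈ I} => ((i : Pidx N) : ℕ))) ∘
            (Equiv.optionCongr E) = pg N I := by
          funext o
          cases o <;> rfl
        rw [h4]
      rw [e, h1, not_iff_not]
      constructor
      · intro h5 x hx
        rw [Finset.mem_image] at hx
        obtain ⟨a, ha, rfl⟩ := hx
        exact h5 ((Set.Finite.mem_toFinset _).1 ha)
      · intro h5 a ha
        exact h5 (Finset.mem_image.2 ⟨a, (Set.Finite.mem_toFinset _).2 ha, rfl⟩)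

end Pool.Agent.Helper17.LR
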