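import Pool.Agent.Helper17.LR.Fl

/-!
# pi and the ratios of Gamma values (MP_274814_nt): the upper bound when pi is algebraic over the
ratios
-/

set_option autoImplicit false

namespace Pool.Agent.Helper17.LR

open Set Module Pool.Agent.Helper24.LU Pool.Agent.Helper24.GammaTr Pool.Agent.Helper24.LRDefs

/-- `Γ (a / q)` is algebraic over a field over which `π` and the ratio are algebraic. -/
theorem gam_alg2 (K : IntermediateField ℚ ℂ) (q a : ℕ) (h1 : 1 ≤ a) (h2 : a < q)
    (hpi : IsAlgebraic K (Real.pi : ℂ)) (hR : IsAlgebraic K ((Rr q a : ℝ) : ℂ)) :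
    IsAlgebraic K ((Real.Gamma ((a : ℝ) / q) : ℝ) : ℂ) := by
  have hqr : (0 : ℝ) < q := by exact_mod_cast (by omega : 0 < q)
  have hcr : (0 : ℝ) < a := by exact_mod_cast h1
  have hcq : (a : ℝ) < q := by exact_mod_cast h2
  have hlt : (a : ℝ) / q < 1 := by rw [div_lt_one hqr]; exact hcq
  have hsin : IsAlgebraic ℚ (Real.sin (Real.pi * ((a : ℝ) / q))) := by
    have h3 := Real.isAlgebraic_sin_rat_mul_pi ((a : ℚ) / q)
    have h4 : ((((a : ℚ) / q : ℚ) : ℝ) * Real.pi) = Real.pi * ((a : ℝ) / q) := by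
      push_cast; ring
    rw [h4] at h3
    exact h3.extendScalars (FaithfulSMul.algebraMap_injective ℤ ℚ)
  have hrefl := Real.Gamma_mul_Gamma_one_sub ((a : ℝ) / q)
  have hG2 : Real.Gamma (1 - (a : ℝ) / q) ≠ 0 := (Real.Gamma_pos_of_pos (by linarith)).ne'
  have hkey : Real.Gamma ((a : ℝ) / q) ^ 2 =
      Rr q a * (Real.pi * (Real.sin (Real.pi * ((a : ℝ) / q)))⁻¹) := by
    have h3 : Real.pi * (Real.sin (Real.pi * ((a : ℝ) / q)))⁻¹ =
        Real.Gamma ((a : ℝ) / q) * Real.Gamma (1 - (a : ℝ) / q) := by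
      rw [hrefl]
      exact (div_eq_mul_inv _ _).symm
    rw [h3]
    unfold Rr
    revert hG2
    generalize Real.Gamma (1 - (a : ℝ) / q) = G2
    generalize Real.Gamma ((a : ℝ) / q) = G1
    intro hG2
    field_simp
  have e1 : IsAlgebraic K (((Real.sin (Real.pi * ((a : ℝ) / q)) : ℝ) : ℂ)) :=
    isAlg_of_alg K hsin
  have e4 := hR.mul (hpi.mul e1.inv)
  have e5 : ((Real.Gamma ((a : ℝ) / q) : ℝ) : ℂ) ^ 2 = ((Rr q a : ℝ) : ℂ) *
      (((Real.pi : ℝ) : ℂ) * (((Real.sin (Real.pi * ((a : ℝ) / q)) : ℝ) : ℂ))⁻¹) := by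
    exact_mod_cast congrArg (fun x : ℝ => (x : ℂ)) hkey
  exact IsAlgebraic.of_pow (n := 2) (by norm_num) (e5 ▸ e4)

open scoped IntermediateField.algebraAdjoinAdjoin in
theorem adjoin_alg (S : Set ℂ) {z : ℂ} (h : IsAlgebraic (Algebra.adjoin ℚ S) z) :
    IsAlgebraic (IntermediateField.adjoin ℚ S) z :=
  (IsFractionRing.isAlgebraic_iff (Algebra.adjoin ℚ S) (IntermediateField.adjoin ℚ S) ℂ).1 h

/-- If `π` is algebraic over the ratios then the field with `π` has degree at most `φ(q) / 2`. -/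
theorem le_of_PA (q : ℕ) (hq : 2 < q) (hp : PA q) :
    Algebra.trdeg ℚ (Fall q) ≤ ((q.totient / 2 : ℕ) : Cardinal) := by
  classical
  have : NeZero q := ⟨by omega⟩
  obtain ⟨b, -, -, hspan, hli⟩ := exists_linearIndepOn_extension
    (linearIndepOn_empty ℚ (hv q)) (empty_subset (univ : Set (ZMod q)))
  have hb0 : ∀ x ∈ b, x ≠ 0 := ne_zero_of_lin (hv_zero q) hli
  have : Fintype b := Fintype.ofFinite b
  have hcard : Fintype.card b ≤ q.totient / 2 := by
    have hfin : FiniteDimensional ℚ (Submodule.span ℚ (range (hv q))) :=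
      FiniteDimensional.span_of_finite ℚ (Set.finite_range _)
    have h5 := finrank_span_eq_card hli
    rw [← h5]
    refine (Submodule.finrank_mono (Submodule.span_mono ?_)).trans (rank_OD q hq (hv q) (OD_hv q))
    rintro _ ⟨a, rfl⟩
    exact ⟨a, rfl⟩
  set K := IntermediateField.adjoin ℚ (Rz q '' b) with hK
  have hR : ∀ a : ZMod q, a ≠ 0 → IsAlgebraic K (Rz q a) := by
    intro a ha
    refine alg_of_span q b a ha hb0 (hspan ⟨a, mem_univ a, rfl⟩) K ?_
    intro c hc
    exact isAlg_of_mem K (IntermediateField.subset_adjoin ℚ _ ⟨c, hc, rfl⟩)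
  have hR' : ∀ a : ℕ, 1 ≤ a → a < q → IsAlgebraic K ((Rr q a : ℝ) : ℂ) := by
    intro a h1 h2
    have h3 := hR (a : ZMod q) (by
      intro h3
      rw [ZMod.natCast_eq_zero_iff] at h3
      exact absurd (Nat.le_of_dvd h1 h3) (by omega))
    unfold Rz at h3
    rwa [ZMod.val_cast_of_lt h2] at h3
  have hpi : IsAlgebraic K (Real.pi : ℂ) := by
    apply adjoin_alg
    unfold PA at hp
    refine cl_trans ?_ hp
    rintro _ ⟨a, rfl⟩
    exact alg_adjoin _ (hR' a a.2.1 a.2.2)
  have hle : Fall q ≤ (algebraicClosure K ℂ).restrictScalars ℚ := by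
    unfold Fall
    rw [IntermediateField.adjoin_le_iff]
    rintro z (hz | ⟨a, ha1, ha2, rfl⟩)
    · rw [Set.mem_singleton_iff] at hz
      rw [hz]
      change _ ∈ IntermediateField.restrictScalars ℚ _
      rw [IntermediateField.mem_restrictScalars, mem_algebraicClosure_iff]
      exact hpi
    · change _ ∈ IntermediateField.restrictScalars ℚ _
      rw [IntermediateField.mem_restrictScalars, mem_algebraicClosure_iff]
      have h1 := gam_alg2 K q a ha1 (by omega) hpi (hR' a ha1 (by omega))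
      have h2 : ((Real.Gamma ((a : ℝ) / q) : ℝ) : ℂ) = Complex.Gamma ((a : ℂ) / q) := by
        rw [← Complex.Gamma_ofReal]
        push_cast
        rfl
      rw [h2] at h1
      exact h1
  have h1 := trdeg_le_of_alg (Fall q) (Rz q '' b) (fun z hz => by
    have := hle hz
    rwa [IntermediateField.mem_restrictScalars, mem_algebraicClosure_iff] at this)
  refine h1.trans (Cardinal.mk_image_le.trans ?_)
  rw [Cardinal.mk_fintype, Nat.cast_le]
  exact hcard

/-- The full transcendence degree at level `q` is equivalent to the independence of `π`. -/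
theorem full_iff (q : ℕ) (hq : 2 < q) (h : HasInd q (q.totient / 2)) :
    ((1 + q.totient / 2 : ℕ) : Cardinal) ≤ Algebra.trdeg ℚ (Fall q) ↔ ¬ PA q := by
  constructor
  · intro h1 hp
    have h2 := h1.trans (le_of_PA q hq hp)
    rw [Nat.cast_le] at h2
    omega
  · exact full_of q hq h

/-- **All levels.** -/
theorem all_levels (hall : ∀ q : ℕ, 2 < q → HasInd q (q.totient / 2)) :
    ∃ f : ℕ, f ≠ 1 ∧ f ≠ 2 ∧ ∀ q : ℕ, 2 < q →
      (((1 + q.totient / 2 : ℕ) : Cardinal) ≤ Algebra.trdeg ℚ (Fall q) ↔ ¬ f ∣ q) := by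
  obtain ⟨f, h1, h2, h⟩ := exists_level hall
  refine ⟨f, h1, h2, fun q hq => ?_⟩
  rw [full_iff q hq (hall q hq), h q (by omega)]

end Pool.Agent.Helper17.LR
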