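import Pool.Agent.Helper17.LR.Al

/-!
# pi and the ratios of Gamma values (MP_274814_nt): the spaces of two levels meet in the space of
the greatest common divisor
-/

set_option autoImplicit false

namespace Pool.Agent.Helper17.LR

open Set Module Pool.Agent.Helper24.LU Pool.Agent.Helper24.GammaTr

/-- the residues of level `d` -/
def Sd (N d : ℕ) : Set (ZMod N) := {a | (d : ZMod N) * a = 0}

theorem Sd_mono {N d e : ℕ} (h : d ∣ e) : Sd N d ⊆ Sd N e := by
  obtain ⟨k, rfl⟩ := h
  intro a ha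
  change ((d * k : ℕ) : ZMod N) * a = 0
  have h1 : (d : ZMod N) * a = 0 := ha
  rw [Nat.cast_mul, mul_comm (d : ZMod N), mul_assoc, h1, mul_zero]

theorem mem_Sd_gcd {N d e : ℕ} {a : ZMod N} (h1 : a ∈ Sd N d) (h2 : a ∈ Sd N e) :
    a ∈ Sd N (Nat.gcd d e) := by
  change ((Nat.gcd d e : ℕ) : ZMod N) * a = 0
  have h1' : (d : ZMod N) * a = 0 := h1
  have h2' : (e : ZMod N) * a = 0 := h2
  have h3 := Nat.gcd_eq_gcd_ab d e
  have h4 : ((Nat.gcd d e : ℕ) : ZMod N) = (d : ZMod N) * ((Nat.gcdA d e : ℤ) : ZMod N) +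
      (e : ZMod N) * ((Nat.gcdB d e : ℤ) : ZMod N) := by
    have := congrArg (fun z : ℤ => (z : ZMod N)) h3
    push_cast at this
    exact this
  rw [h4, add_mul]
  calc (d : ZMod N) * ((Nat.gcdA d e : ℤ) : ZMod N) * a +
        (e : ZMod N) * ((Nat.gcdB d e : ℤ) : ZMod N) * a
      = ((Nat.gcdA d e : ℤ) : ZMod N) * ((d : ZMod N) * a) +
        ((Nat.gcdB d e : ℤ) : ZMod N) * ((e : ZMod N) * a) := by ring
    _ = 0 := by rw [h1', h2', mul_zero, mul_zero, add_zero]

/-- A function of the eigenspace of a character vanishes at the levels which are not multiples of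
the conductor. -/
theorem eigen_vanish (q : ℕ) [NeZero q] (χ : DirichletCharacter ℂ q) (E : ZMod q → ℂ)
    (hχ : ∀ (u : (ZMod q)ˣ) (a : ZMod q), E (u * a) = χ u * E a) {d : ℕ} (hd : d ∣ q)
    (hc : ¬ χ.conductor ∣ d) (a : ZMod q) (ha : a ∈ Sd q d) : E a = 0 := by
  have hd0 : 0 < d := Nat.pos_of_dvd_of_pos hd (NeZero.pos q)
  have h1 : ¬ d ∈ χ.conductorSet := fun h =>
    hc ((DirichletCharacter.mem_conductorSet_iff_conductor_dvd χ hd).1 h)
  have h2 : ¬ (ZMod.unitsMap hd).ker ≤ χ.toUnitHom.ker := fun h =>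
    h1 ((DirichletCharacter.factorsThrough_iff_ker_unitsMap (χ := χ) hd).2 h)
  rw [SetLike.not_le_iff_exists] at h2
  obtain ⟨u, hu1, hu2⟩ := h2
  have h3 := (unit_one_iff hd u).1 hu1
  have h5 : χ (u : ZMod q) ≠ 1 := by
    intro h
    apply hu2
    rw [MonoidHom.mem_ker]
    apply Units.ext
    rw [MulChar.coe_toUnitHom, h, Units.val_one]
  have h4 : (u : ZMod q) * a = a := by
    have e1 : ((d * a.val : ℕ) : ZMod q) = 0 := by
      rw [Nat.cast_mul, ZMod.natCast_zmod_val]; exact ha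
    rw [ZMod.natCast_eq_zero_iff] at e1
    obtain ⟨k, hk⟩ : q / d ∣ a.val := by
      have e2 : d * (q / d) ∣ d * a.val := by rw [Nat.mul_div_cancel' hd]; exact e1
      exact Nat.dvd_of_mul_dvd_mul_left hd0 e2
    have e3 : a = ((q / d : ℕ) : ZMod q) * k := by
      rw [← Nat.cast_mul, ← hk, ZMod.natCast_zmod_val]
    rw [e3, ← mul_assoc, h3]
  have h6 := hχ u a
  rw [h4] at h6
  have h7 : (χ (u : ZMod q) - 1) * E a = 0 := by rw [sub_mul, one_mul, ← h6, sub_self]
  rcases mul_eq_zero.1 h7 with h | h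
  · exact absurd (sub_eq_zero.1 h) h5
  · exact h

/-- Relations between the classes hold for every odd distribution. -/
theorem rel_all {M : Type*} [AddCommGroup M] [Module ℚ M] (q : ℕ) [NeZero q] (hq : 2 < q)
    (h : HasInd q (q.totient / 2)) (G : ZMod q → M) (hG : OD q G) (c : ZMod q → ℚ)
    (hc : ∑ a, c a • hv q a = 0) : ∑ a, c a • G a = 0 := by
  classical
  set P : ZMod q → (ℝ ⧸ CC ⊥) × M := fun a => (hv q a, G a) with hP
  have hOD : OD q P := (OD_hv q).prod hG
  have hr := rank_OD q hq P hOD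
  set Q := Submodule.span ℚ (range P) with hQ
  have hfin : FiniteDimensional ℚ Q := FiniteDimensional.span_of_finite ℚ (Set.finite_range _)
  have hmem : ∀ a, P a ∈ Q := fun a => Submodule.subset_span ⟨a, rfl⟩
  set L : Q →ₗ[ℚ] (ℝ ⧸ CC ⊥) := (LinearMap.fst ℚ (ℝ ⧸ CC ⊥) M).comp Q.subtype with hL
  have hrange : Submodule.span ℚ (range (hv q)) ≤ LinearMap.range L := by
    rw [Submodule.span_le]
    rintro _ ⟨a, rfl⟩
    exact ⟨⟨P a, hmem a⟩, rfl⟩
  have hge := rank_ge q _ h
  have h1 := LinearMap.finrank_range_add_finrank_ker L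
  have h2 := Submodule.finrank_mono hrange
  have h3 : finrank ℚ (LinearMap.ker L) = 0 := by omega
  have h4 : LinearMap.ker L = ⊥ := Submodule.finrank_eq_zero.1 h3
  set x : Q := ∑ a, c a • (⟨P a, hmem a⟩ : Q) with hx
  have hx1 : L x = 0 := by
    rw [hx, map_sum]
    simp only [map_smul]
    exact hc
  have hx2 : x = 0 := by
    have : x ∈ LinearMap.ker L := hx1
    rwa [h4, Submodule.mem_bot] at this
  have hx3 := congrArg (fun z : Q => (LinearMap.snd ℚ (ℝ ⧸ CC ⊥) M) (z : (ℝ ⧸ CC ⊥) × M)) hx2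
  simp only [hx, Submodule.coe_sum, Submodule.coe_smul, map_sum, map_smul, Submodule.coe_zero,
    map_zero] at hx3
  exact hx3

theorem OD_cmp (q : ℕ) [NeZero q] (χ : DirichletCharacter ℂ q) (F : ZMod q → ℂ) (hF : OD q F) :
    OD q (cmp q χ F) := by
  refine ⟨?_, fun p hp hpq a => cmp_rel q χ F hF p hp hpq a⟩
  intro a
  unfold cmp
  rw [← Finset.sum_neg_distrib]
  refine Finset.sum_congr rfl fun u _ => ?_
  rw [mul_neg, hF.neg, mul_neg]

theorem sum_cmp (q : ℕ) [NeZero q] (F : ZMod q → ℂ) (a : ZMod q) :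
    F a = ∑ χ : DirichletCharacter ℂ q, (q.totient : ℂ)⁻¹ * cmp q χ F a := by
  have h2 := Pool.Agent.Helper24.GammaChar.expansion q (fun u => F (u * a)) 1
  rw [Units.val_one, one_mul] at h2
  rw [h2]
  refine Finset.sum_congr rfl fun χ _ => ?_
  rw [map_one, mul_one]
  rfl

/-- coefficients supported on a set -/
theorem mem_span_coeff {M : Type*} [AddCommGroup M] [Module ℚ M] {q : ℕ} [NeZero q]
    (v : ZMod q → M) (S : Set (ZMod q)) {x : M} (hx : x ∈ Submodule.span ℚ (v '' S)) :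
    ∃ c : ZMod q → ℚ, (∀ a, a ∉ S → c a = 0) ∧ ∑ a, c a • v a = x := by
  classical
  rw [Finsupp.mem_span_image_iff_linearCombination] at hx
  obtain ⟨l, hl, rfl⟩ := hx
  refine ⟨l, ?_, ?_⟩
  · intro a ha
    by_contra h
    exact ha (hl (Finsupp.mem_support_iff.2 h))
  · rw [Finsupp.linearCombination_apply]
    exact (Finsupp.sum_fintype l (fun i a => a • v i) (fun i => zero_smul ℚ _)).symm

/-- **The spaces of two levels.** -/
theorem inter_level (N : ℕ) [NeZero N] (hN : 2 < N) (h : HasInd N (N.totient / 2)) {d1 d2 : ℕ}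
    (h1 : d1 ∣ N) (h2 : d2 ∣ N) :
    Submodule.span ℚ (hv N '' Sd N d1) ⊓ Submodule.span ℚ (hv N '' Sd N d2) ≤
      Submodule.span ℚ (hv N '' Sd N (Nat.gcd d1 d2)) := by
  classical
  rintro x ⟨hx1, hx2⟩
  by_contra hx
  obtain ⟨l, hl0, hl⟩ := Submodule.exists_le_ker_of_notMem hx
  set F : ZMod N → ℂ := fun a => ((l (hv N a) : ℚ) : ℂ) with hF
  have hOD : OD N F := by
    have ho := OD_hv N
    refine ⟨?_, ?_⟩
    · intro a
      simp only [hF]
      rw [ho.neg, map_neg, Rat.cast_neg]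
    · intro p hp hpq a
      simp only [hF]
      rw [← ho.rel p hp hpq a, map_sum, Rat.cast_sum]
  obtain ⟨c1, hc1, hs1⟩ := mem_span_coeff (hv N) _ hx1
  obtain ⟨c2, hc2, hs2⟩ := mem_span_coeff (hv N) _ hx2
  have hrel : ∀ G : ZMod N → ℂ, OD N G → ∑ a, c1 a • G a = ∑ a, c2 a • G a := by
    intro G hG
    have e := rel_all N hN h G hG (fun a => c1 a - c2 a) (by
      simp only [sub_smul, Finset.sum_sub_distrib]
      rw [hs1, hs2, sub_self])
    simp only [sub_smul, Finset.sum_sub_distrib] at e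
    exact sub_eq_zero.1 e
  have hzero : ∀ χ : DirichletCharacter ℂ N, ∑ a, c1 a • cmp N χ F a = 0 := by
    intro χ
    by_cases hg : χ.conductor ∣ Nat.gcd d1 d2
    · have h0 : cmp N χ F ((N / χ.conductor : ℕ) : ZMod N) = 0 := by
        unfold cmp
        refine Finset.sum_eq_zero fun u _ => ?_
        have hm : (u : ZMod N) * ((N / χ.conductor : ℕ) : ZMod N) ∈ Sd N (Nat.gcd d1 d2) := by
          apply Sd_mono hg
          change ((χ.conductor : ℕ) : ZMod N) * (u * ((N / χ.conductor : ℕ) : ZMod N)) = 0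
          have e1 : ((χ.conductor * (N / χ.conductor) : ℕ) : ZMod N) = 0 := by
            rw [Nat.mul_div_cancel' χ.conductor_dvd_level, ZMod.natCast_self]
          rw [Nat.cast_mul] at e1
          calc ((χ.conductor : ℕ) : ZMod N) * (u * ((N / χ.conductor : ℕ) : ZMod N))
              = u * (((χ.conductor : ℕ) : ZMod N) * ((N / χ.conductor : ℕ) : ZMod N)) := by ring
            _ = 0 := by rw [e1, mul_zero]
        have e2 : F (u * ((N / χ.conductor : ℕ) : ZMod N)) = 0 := by
          simp only [hF]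
          have e3 := hl (Submodule.subset_span (mem_image_of_mem (hv N) hm))
          rw [LinearMap.mem_ker] at e3
          rw [e3, Rat.cast_zero]
        rw [e2, mul_zero]
      refine Finset.sum_eq_zero fun a _ => ?_
      rw [eigen_zero N χ (cmp N χ F) (fun p hp hpq b => cmp_rel N χ F hOD p hp hpq b)
        (fun u b => cmp_unit N χ F u b) h0 a, smul_zero]
    · have hor : ¬ χ.conductor ∣ d1 ∨ ¬ χ.conductor ∣ d2 := by
        by_contra hcon
        push Not at hcon
        exact hg (Nat.dvd_gcd hcon.1 hcon.2)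
      rcases hor with hd | hd
      · refine Finset.sum_eq_zero fun a _ => ?_
        by_cases ha : a ∈ Sd N d1
        · rw [eigen_vanish N χ (cmp N χ F) (fun u b => cmp_unit N χ F u b) h1 hd a ha, smul_zero]
        · rw [hc1 a ha, zero_smul]
      · rw [hrel _ (OD_cmp N χ F hOD)]
        refine Finset.sum_eq_zero fun a _ => ?_
        by_cases ha : a ∈ Sd N d2
        · rw [eigen_vanish N χ (cmp N χ F) (fun u b => cmp_unit N χ F u b) h2 hd a ha, smul_zero]
        · rw [hc2 a ha, zero_smul]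
  have hfin : ∑ a, c1 a • F a = 0 := by
    calc ∑ a, c1 a • F a
        = ∑ a, c1 a • ∑ χ : DirichletCharacter ℂ N, (N.totient : ℂ)⁻¹ * cmp N χ F a := by
          refine Finset.sum_congr rfl fun a _ => ?_
          rw [← sum_cmp N F a]
      _ = ∑ χ : DirichletCharacter ℂ N, (N.totient : ℂ)⁻¹ * ∑ a, c1 a • cmp N χ F a := by
          simp only [Finset.smul_sum, Finset.mul_sum]
          rw [Finset.sum_comm]
          refine Finset.sum_congr rfl fun χ _ => Finset.sum_congr rfl fun a _ => ?_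
          rw [mul_smul_comm]
      _ = 0 := by
          refine Finset.sum_eq_zero fun χ _ => ?_
          rw [hzero χ, mul_zero]
  apply hl0
  rw [← hs1, map_sum]
  simp only [map_smul, smul_eq_mul]
  have e5 : ((∑ a, c1 a * l (hv N a) : ℚ) : ℂ) = 0 := by
    rw [Rat.cast_sum, ← hfin]
    refine Finset.sum_congr rfl fun a _ => ?_
    rw [Rat.cast_mul, Rat.smul_def]
  exact_mod_cast e5

end Pool.Agent.Helper17.LR
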