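import Pool.Agent.Helper17.LR.Ex

/-!
# pi and the ratios of Gamma values (MP_274814_nt): the exchange argument
-/

set_option autoImplicit false

namespace Pool.Agent.Helper17.LR

open Set Module Pool.Agent.Helper24.LU Pool.Agent.Helper24.GammaTr

/-- transitivity of algebraic closures -/
theorem cl_trans {X Y : Set ℂ} (h : ∀ x ∈ X, IsAlgebraic (Algebra.adjoin ℚ Y) x) {z : ℂ}
    (hz : IsAlgebraic (Algebra.adjoin ℚ X) z) : IsAlgebraic (Algebra.adjoin ℚ Y) z := by
  have h1 : X ⊆ (AlgebraicIndependent.matroid ℚ ℂ).closure Y := by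
    intro x hx
    rw [AlgebraicIndependent.matroid_closure_eq, SetLike.mem_coe, Subalgebra.mem_algebraicClosure]
    exact h x hx
  have h2 : z ∈ (AlgebraicIndependent.matroid ℚ ℂ).closure X := by
    rw [AlgebraicIndependent.matroid_closure_eq, SetLike.mem_coe, Subalgebra.mem_algebraicClosure]
    exact hz
  have h3 := (AlgebraicIndependent.matroid ℚ ℂ).closure_subset_closure_of_subset_closure h1 h2
  rw [AlgebraicIndependent.matroid_closure_eq, SetLike.mem_coe,
    Subalgebra.mem_algebraicClosure] at h3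
  exact h3

/-- `π` is algebraic over the ratios of level `q`. -/
def PA (q : ℕ) : Prop :=
  IsAlgebraic (Algebra.adjoin ℚ (range fun a : {a : ℕ // 1 ≤ a ∧ a < q} => ((Rr q a : ℝ) : ℂ)))
    (Real.pi : ℂ)

theorem PA_iff (N d : ℕ) [NeZero N] (hd : d ∣ N) :
    PA d ↔ IsAlgebraic (Algebra.adjoin ℚ (Rz N '' (Sd N d \ {0}))) (Real.pi : ℂ) := by
  have hN0 : 0 < N := NeZero.pos N
  have hd0 : 0 < d := Nat.pos_of_dvd_of_pos hd hN0
  obtain ⟨e, he⟩ := hd
  have he0 : 0 < e := by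
    rcases Nat.eq_zero_or_pos e with h | h
    · rw [h, mul_zero] at he; omega
    · exact h
  have hset : (range fun a : {a : ℕ // 1 ≤ a ∧ a < d} => ((Rr d a : ℝ) : ℂ)) =
      Rz N '' (Sd N d \ {0}) := by
    apply Subset.antisymm
    · rintro _ ⟨⟨a, ha1, ha2⟩, rfl⟩
      have hlt : a * e < N := by
        rw [he]; exact Nat.mul_lt_mul_of_pos_right ha2 he0
      refine ⟨((a * e : ℕ) : ZMod N), ⟨?_, ?_⟩, ?_⟩
      · change (d : ZMod N) * ((a * e : ℕ) : ZMod N) = 0
        rw [← Nat.cast_mul, ZMod.natCast_eq_zero_iff, he]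
        exact ⟨a, by ring⟩
      · rw [mem_singleton_iff, ZMod.natCast_eq_zero_iff]
        intro h
        have h1 := Nat.le_of_dvd (Nat.mul_pos ha1 he0) h
        omega
      · unfold Rz
        rw [ZMod.val_cast_of_lt hlt]
        have h1 := Rr_level d e a he0
        rw [← he] at h1
        rw [h1]
    · rintro _ ⟨x, ⟨hx1, hx2⟩, rfl⟩
      have h1 : ((d * x.val : ℕ) : ZMod N) = 0 := by
        rw [Nat.cast_mul, ZMod.natCast_zmod_val]; exact hx1
      rw [ZMod.natCast_eq_zero_iff] at h1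
      obtain ⟨k, hk⟩ : e ∣ x.val := by
        have e2 : d * e ∣ d * x.val := by rw [← he]; exact h1
        exact Nat.dvd_of_mul_dvd_mul_left hd0 e2
      have hx0 : x.val ≠ 0 := (ZMod.val_ne_zero x).2 hx2
      have hk0 : 1 ≤ k := by
        rcases Nat.eq_zero_or_pos k with h | h
        · rw [h, mul_zero] at hk; exact absurd hk hx0
        · exact h
      have hkd : k < d := by
        have h2 := ZMod.val_lt x
        have h3 : e * k < e * d := by
          calc e * k = x.val := hk.symm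
            _ < N := h2
            _ = e * d := by rw [he, mul_comm]
        exact Nat.lt_of_mul_lt_mul_left h3
      refine ⟨⟨k, hk0, hkd⟩, ?_⟩
      unfold Rz
      have h2 := Rr_level d e k he0
      rw [← he, mul_comm k e, ← hk] at h2
      simp only
      rw [h2]
  unfold PA
  rw [hset]

theorem not_PA_one : ¬ PA 1 := by
  intro h
  rw [PA_iff 1 1 (dvd_refl 1)] at h
  have h1 : Sd 1 1 \ {0} = (∅ : Set (ZMod 1)) := by
    ext x
    simp only [mem_sdiff, mem_singleton_iff, mem_empty_iff_false, iff_false, not_and, not_not]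
    intro _
    exact Subsingleton.elim x 0
  rw [h1] at h
  exact pi_tr (cl_empty (Rz 1) _ h)

theorem not_PA_two : ¬ PA 2 := by
  intro h
  refine not_PA_one ?_
  unfold PA at h ⊢
  refine cl_trans ?_ h
  rintro _ ⟨⟨a, h1, h2⟩, rfl⟩
  have ha : a = 1 := by omega
  subst ha
  have h3 : Rr 2 1 = 1 := by
    unfold Rr
    have h4 : (1 : ℝ) - ((1 : ℕ) : ℝ) / ((2 : ℕ) : ℝ) = ((1 : ℕ) : ℝ) / ((2 : ℕ) : ℝ) := by
      norm_num
    rw [h4]
    exact div_self (Real.Gamma_pos_of_pos (by norm_num)).ne'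
  simp only [h3, Complex.ofReal_one]
  exact isAlgebraic_one

theorem PA_mono {d e : ℕ} (he : 0 < e) (hde : d ∣ e) (h : PA d) : PA e := by
  have : NeZero e := ⟨he.ne'⟩
  rw [PA_iff e d hde] at h
  rw [PA_iff e e dvd_rfl]
  refine cl_trans ?_ h
  rintro _ ⟨a, ⟨ha1, ha2⟩, rfl⟩
  exact isAlgebraic_algebraMap (⟨Rz e a, Algebra.subset_adjoin ⟨a, ⟨Sd_mono hde ha1, ha2⟩, rfl⟩⟩ :
      Algebra.adjoin ℚ (Rz e '' (Sd e e \ {0})))

/-- **Exchange.** -/
theorem exchange (N : ℕ) (hN : 2 < N) (h : HasInd N (N.totient / 2)) {d1 d2 : ℕ}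
    (h1 : d1 ∣ N) (h2 : d2 ∣ N) (hp1 : PA d1) (hp2 : PA d2) : PA (Nat.gcd d1 d2) := by
  classical
  have : NeZero N := ⟨by omega⟩
  have hg : Nat.gcd d1 d2 ∣ N := (Nat.gcd_dvd_left d1 d2).trans h1
  rw [PA_iff N _ h1] at hp1
  rw [PA_iff N _ h2] at hp2
  rw [PA_iff N _ hg]
  set g := Nat.gcd d1 d2 with hgd
  obtain ⟨b0, hb0, -, hsp0, hl0⟩ := exists_linearIndepOn_extension
    (linearIndepOn_empty ℚ (hv N)) (empty_subset (Sd N g))
  obtain ⟨b1, hb1, hb01, hsp1, hl1⟩ := exists_linearIndepOn_extension hl0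
    (hb0.trans (Sd_mono (Nat.gcd_dvd_left d1 d2)))
  obtain ⟨b2, hb2, hb02, hsp2, hl2⟩ := exists_linearIndepOn_extension hl0
    (hb0.trans (Sd_mono (Nat.gcd_dvd_right d1 d2)))
  have hcl : ∀ (b : Set (ZMod N)) (d : ℕ), LinearIndepOn ℚ (hv N) b →
      hv N '' Sd N d ⊆ Submodule.span ℚ (hv N '' b) →
      IsAlgebraic (Algebra.adjoin ℚ (Rz N '' (Sd N d \ {0}))) (Real.pi : ℂ) →
      IsAlgebraic (Algebra.adjoin ℚ (Rz N '' b)) (Real.pi : ℂ) := by
    intro b d hli hsp hp
    refine cl_trans ?_ hp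
    rintro _ ⟨a, ⟨ha1, ha2⟩, rfl⟩
    apply alg_adjoin
    refine alg_of_span N b a ha2 (ne_zero_of_lin (hv_zero N) hli) (hsp ⟨a, ha1, rfl⟩) _ ?_
    intro c hc
    exact isAlg_of_mem _ (IntermediateField.subset_adjoin ℚ _ ⟨c, hc, rfl⟩)
  have hq1 := hcl b1 d1 hl1 hsp1 hp1
  have hq2 := hcl b2 d2 hl2 hsp2 hp2
  have hli : LinearIndepOn ℚ (hv N) (b1 ∪ (b2 \ b0)) := by
    apply hl1.union (hl2.mono sdiff_subset)
    rw [Submodule.disjoint_def]
    intro x hx1 hx2
    have hx3 : x ∈ Submodule.span ℚ (hv N '' b0) := by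
      have e1 : x ∈ Submodule.span ℚ (hv N '' Sd N d1) :=
        Submodule.span_mono (image_mono hb1) hx1
      have e2 : x ∈ Submodule.span ℚ (hv N '' Sd N d2) :=
        Submodule.span_mono (image_mono (sdiff_subset.trans hb2)) hx2
      have e3 := inter_level N hN h h1 h2 ⟨e1, e2⟩
      exact (Submodule.span_le.2 hsp0) e3
    have hd : Disjoint (Submodule.span ℚ (hv N '' b0)) (Submodule.span ℚ (hv N '' (b2 \ b0))) := by
      have e1 := LinearIndependent.disjoint_span_image (v := fun x : b2 => hv N x) hl2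
        (s := {x | (x : ZMod N) ∈ b0}) (t := {x | (x : ZMod N) ∉ b0})
        (by rw [Set.disjoint_left]; intro x hx hx'; exact hx' hx)
      have e2 : (fun x : b2 => hv N x) '' {x | (x : ZMod N) ∈ b0} = hv N '' b0 := by
        apply Subset.antisymm
        · rintro _ ⟨x, hx, rfl⟩
          exact ⟨x, hx, rfl⟩
        · rintro _ ⟨x, hx, rfl⟩
          exact ⟨⟨x, hb02 hx⟩, hx, rfl⟩
      have e3 : (fun x : b2 => hv N x) '' {x | (x : ZMod N) ∉ b0} = hv N '' (b2 \ b0) := by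
        apply Subset.antisymm
        · rintro _ ⟨x, hx, rfl⟩
          exact ⟨x, ⟨x.2, hx⟩, rfl⟩
        · rintro _ ⟨x, hx, rfl⟩
          exact ⟨⟨x, hx.1⟩, hx.2, rfl⟩
      rw [e2, e3] at e1
      exact e1
    exact Submodule.disjoint_def.1 hd x hx3 hx2
  have hun : b1 ∪ (b2 \ b0) = b1 ∪ b2 := by
    ext x
    simp only [mem_union, mem_sdiff]
    constructor
    · rintro (hx | hx)
      · exact Or.inl hx
      · exact Or.inr hx.1
    · rintro (hx | hx)
      · exact Or.inl hx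
      · by_cases hx0 : x ∈ b0
        · exact Or.inl (hb01 hx0)
        · exact Or.inr ⟨hx, hx0⟩
  rw [hun] at hli
  have hai := indep_of_hv N hN h _ hli
  have himg : ∀ b : Set (ZMod N), b ⊆ b1 ∪ b2 →
      (fun a : (b1 ∪ b2 : Set (ZMod N)) => Rz N a) '' {a | (a : ZMod N) ∈ b} = Rz N '' b := by
    intro b hb
    apply Subset.antisymm
    · rintro _ ⟨x, hx, rfl⟩
      exact ⟨x, hx, rfl⟩
    · rintro _ ⟨x, hx, rfl⟩
      exact ⟨⟨x, hb hx⟩, hx, rfl⟩
  have hfin := inter_cl _ hai (Real.pi : ℂ) {a | (a : ZMod N) ∈ b1} {a | (a : ZMod N) ∈ b2}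
    (by rw [himg b1 subset_union_left]; exact hq1) (by rw [himg b2 subset_union_right]; exact hq2)
  have hint : {a : (b1 ∪ b2 : Set (ZMod N)) | (a : ZMod N) ∈ b1} ∩
      {a : (b1 ∪ b2 : Set (ZMod N)) | (a : ZMod N) ∈ b2} =
      {a : (b1 ∪ b2 : Set (ZMod N)) | (a : ZMod N) ∈ b1 ∩ b2} := rfl
  rw [hint, himg (b1 ∩ b2) (inter_subset_left.trans subset_union_left)] at hfin
  refine cl_mono (Rz N) _ ?_ hfin
  rintro x ⟨hx1, hx2⟩
  exact ⟨mem_Sd_gcd (hb1 hx1) (hb2 hx2), ne_zero_of_lin (hv_zero N) hl1 x hx1⟩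

/-- The levels over which `π` is algebraic are the multiples of one level. -/
theorem exists_level (hall : ∀ q : ℕ, 2 < q → HasInd q (q.totient / 2)) :
    ∃ f : ℕ, f ≠ 1 ∧ f ≠ 2 ∧ ∀ q : ℕ, 0 < q → (PA q ↔ f ∣ q) := by
  classical
  by_cases hex : ∃ q : ℕ, 0 < q ∧ PA q
  · set f := Nat.find hex with hf
    have hf0 : 0 < f := (Nat.find_spec hex).1
    have hfP : PA f := (Nat.find_spec hex).2
    refine ⟨f, ?_, ?_, ?_⟩
    · intro h
      rw [h] at hfP
      exact not_PA_one hfP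
    · intro h
      rw [h] at hfP
      exact not_PA_two hfP
    · intro q hq
      constructor
      · intro hP
        have hN : 2 < 3 * (q * f) := by
          have := Nat.mul_pos hq hf0
          omega
        have h1 := exchange (3 * (q * f)) hN (hall _ hN) (d1 := q) (d2 := f)
          ⟨3 * f, by ring⟩ ⟨3 * q, by ring⟩ hP hfP
        have h2 : 0 < Nat.gcd q f := Nat.gcd_pos_of_pos_left _ hq
        have h3 : f ≤ Nat.gcd q f := Nat.find_min' hex ⟨h2, h1⟩
        have h4 : Nat.gcd q f = f := le_antisymm (Nat.le_of_dvd hf0 (Nat.gcd_dvd_right q f)) h3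
        rw [← h4]
        exact Nat.gcd_dvd_left q f
      · intro hd
        exact PA_mono hq hd hfP
  · refine ⟨0, by norm_num, by norm_num, ?_⟩
    intro q hq
    constructor
    · intro h
      exact absurd ⟨q, hq, h⟩ hex
    · intro h
      rw [zero_dvd_iff] at h
      omega

end Pool.Agent.Helper17.LR
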