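import Pool.Agent.Helper17.LR.Ey
import Pool.Agent.Helper17.LR.Ck
import Pool.Agent.Helper98.DJ.E3
import Pool.Agent.Helper24.LU.Fs

/-!
# pi and the ratios of Gamma values (MP_274814_nt): transcendence degrees
-/

set_option autoImplicit false

namespace Pool.Agent.Helper17.LR

open Set Module Pool.Agent.Helper24.LU Pool.Agent.Helper24.GammaTr Pool.Agent.Helper24.LRDefs
open Pool.Agent.Helper98.DJ (LR LR_of)

/-- `π` and all the ratios of level `q` which can be independent. -/
theorem full_of (q : ℕ) (hq : 2 < q) (h : HasInd q (q.totient / 2)) (hp : ¬ PA q) :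
    ((1 + q.totient / 2 : ℕ) : Cardinal) ≤ Algebra.trdeg ℚ (Fall q) := by
  classical
  have : NeZero q := ⟨by omega⟩
  obtain ⟨b, -, -, hspan, hli⟩ := exists_linearIndepOn_extension
    (linearIndepOn_empty ℚ (hv q)) (empty_subset (univ : Set (ZMod q)))
  have hb0 : ∀ x ∈ b, x ≠ 0 := ne_zero_of_lin (hv_zero q) hli
  have hsp : Submodule.span ℚ (range (hv q)) = Submodule.span ℚ (hv q '' b) := by
    apply le_antisymm
    · rw [Submodule.span_le]
      rw [← image_univ]
      exact hspan
    · exact Submodule.span_mono (image_subset_range _ _)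
  have : Fintype b := Fintype.ofFinite b
  have hcard : q.totient / 2 ≤ Fintype.card b := by
    refine (rank_ge q _ h).trans ?_
    rw [hsp, image_eq_range]
    exact (finrank_span_eq_card hli).le
  have hai := indep_of_hv q hq h b hli
  have hnot : ¬ IsAlgebraic (Algebra.adjoin ℚ (range fun a : b => Rz q a)) (Real.pi : ℂ) := by
    intro hc
    apply hp
    rw [PA_iff q q dvd_rfl]
    have hsub : (range fun a : b => Rz q a) = Rz q '' b := (image_eq_range _ _).symm
    rw [hsub] at hc
    refine cl_mono (Rz q) _ ?_ hc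
    intro x hx
    refine ⟨?_, hb0 x hx⟩
    change (q : ZMod q) * x = 0
    rw [ZMod.natCast_self, zero_mul]
  have h0 : AlgebraicIndependent ℚ
      (fun o : Option b => o.elim (Real.pi : ℂ) fun a : b => Rz q a) :=
    (hai.option_iff_transcendental _).2 hnot
  set y : Option b → ℂ := fun o => o.elim (Real.pi : ℂ) fun a : b => Rz q a with hy
  have hpiF : (Real.pi : ℂ) ∈ Fall q := IntermediateField.subset_adjoin ℚ _ (Or.inl rfl)
  have hyF : ∀ o, IsAlgebraic (Fall q) (y o) := by
    rintro (_ | a)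
    · exact isAlg_of_mem _ hpiF
    · have ha0 : 1 ≤ (a : ZMod q).val := by
        have := (ZMod.val_ne_zero (a : ZMod q)).2 (hb0 a a.2)
        omega
      have haq := ZMod.val_lt (a : ZMod q)
      exact Rr_alg_of_mem (Fall q) q (a : ZMod q).val ha0 haq hpiF
        (IntermediateField.subset_adjoin ℚ _ (Or.inr ⟨(a : ZMod q).val, ha0, by omega, rfl⟩))
  set L := IntermediateField.adjoin ℚ (Set.range y) with hL
  have h1 : Algebra.trdeg ℚ L ≤ Algebra.trdeg ℚ (Fall q) := by
    apply Pool.Agent.Helper24.GammaFull.trdeg_le_of_alg2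
    have hle : L ≤ (algebraicClosure (Fall q) ℂ).restrictScalars ℚ := by
      rw [hL, IntermediateField.adjoin_le_iff]
      rintro z ⟨o, rfl⟩
      change _ ∈ IntermediateField.restrictScalars ℚ _
      rw [IntermediateField.mem_restrictScalars, mem_algebraicClosure_iff]
      exact hyF o
    intro z hz
    have := hle hz
    rwa [IntermediateField.mem_restrictScalars, mem_algebraicClosure_iff] at this
  refine le_trans ?_ h1
  have hyi : AlgebraicIndependent ℚ
      (fun o => (⟨y o, IntermediateField.subset_adjoin ℚ _ ⟨o, rfl⟩⟩ : L)) :=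
    (AlgHom.algebraicIndependent_iff L.val L.val.injective).1 h0
  have h2 := hyi.lift_cardinalMk_le_trdeg
  rw [Cardinal.mk_fintype, Fintype.card_option] at h2
  have h3 : ((1 + q.totient / 2 : ℕ) : Cardinal) ≤ ((Fintype.card b + 1 : ℕ) : Cardinal) := by
    rw [Nat.cast_le]
    omega
  refine h3.trans ?_
  simpa using h2

/-- `π` and the Gamma values of an independent family. -/
theorem pg_of (q : ℕ) (hq : 2 < q) (h : HasInd q (q.totient / 2)) (hp : ¬ PA q) (S : Finset ℕ)
    (ha : ∀ a ∈ S, 1 ≤ a ∧ a < q)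
    (hli : LinearIndependent ℚ (fun (a : S) (u : {u : ℕ // u.Coprime q}) =>
      Int.fract (((u : ℕ) : ℚ) * ((a : ℕ) : ℚ) / q) - 1 / 2)) :
    AlgebraicIndependent ℚ (pg q S) := by
  have h1 := indep_fam q hq h (fun a : S => (a : ℕ)) (fun a => ha a a.2) hli
  have e : pg q S = gf q (fun a : S => (a : ℕ)) := by
    funext o
    cases o <;> rfl
  rw [e, gf_iff_rf q (fun a : S => (a : ℕ)) (fun a => ha a a.2), rf_iff q _ h1]
  intro hc
  apply hp
  unfold PA
  refine cl_trans ?_ hc
  rintro _ ⟨a, rfl⟩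
  exact isAlgebraic_algebraMap (⟨((Rr q a : ℝ) : ℂ), Algebra.subset_adjoin
    ⟨⟨(a : ℕ), ha a a.2⟩, rfl⟩⟩ : Algebra.adjoin ℚ
      (range fun a : {a : ℕ // 1 ≤ a ∧ a < q} => ((Rr q a : ℝ) : ℂ)))

/-- The inequality of the problem at a good level. -/
theorem LR_of_PA (q : ℕ) (hq : 2 < q)
    (hprim : AlgebraicIndependent ℚ (fun a : Pidx q => Rr q a)) (hp : ¬ PA q) : LR q := by
  refine LR_of q hq (real_iff.2 hprim) fun hc => hp ?_
  unfold PA
  refine cl_trans ?_ hc
  rintro _ ⟨⟨a, ha⟩, rfl⟩
  rw [Finset.mem_filter, Finset.mem_range] at ha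
  have ha0 : 1 ≤ a := by
    rcases Nat.eq_zero_or_pos a with h | h
    · rw [h, Nat.coprime_zero_left] at ha
      omega
    · exact h
  exact isAlgebraic_algebraMap (⟨((Rr q a : ℝ) : ℂ), Algebra.subset_adjoin
    ⟨⟨a, ha0, ha.1⟩, rfl⟩⟩ : Algebra.adjoin ℚ
      (range fun a : {a : ℕ // 1 ≤ a ∧ a < q} => ((Rr q a : ℝ) : ℂ)))

/-- The inequality of the problem from the independence of the primitive family. -/
theorem LR_of_pg (q : ℕ) (hq : 2 < q)
    (hprim : AlgebraicIndependent ℚ (fun a : Pidx q => Rr q a))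
    (h : AlgebraicIndependent ℚ (pg q (PN q))) : LR q := by
  have hr : ∀ a : Pidx q, 1 ≤ (a : ℕ) ∧ (a : ℕ) < q := by
    rintro ⟨a, ha⟩
    rw [Finset.mem_filter, Finset.mem_range] at ha
    refine ⟨?_, ha.1⟩
    rcases Nat.eq_zero_or_pos a with h | h
    · rw [h, Nat.coprime_zero_left] at ha
      omega
    · exact h
  have e : pg q (PN q) = gf q (fun a : PN q => (a : ℕ)) := by
    funext o
    cases o <;> rfl
  have h' : AlgebraicIndependent ℚ (gf q (fun a : Pidx q => (a : ℕ))) := by
    rw [e] at h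
    exact h
  rw [gf_iff_rf q (fun a : Pidx q => (a : ℕ)) hr, rf_iff q _ (real_iff.2 hprim)] at h'
  exact LR_of q hq (real_iff.2 hprim) h'

/-- At most one exception, in the form of sets. -/
theorem two_single {N : ℕ} (hN : N ∈ Pool.Agent.Helper32.LU.Lf) (h2 : 2 < N)
    (h : HasInd N (N.totient / 2)) {a b : ℕ}
    (ha : 1 ≤ a) (hab : a < b) (hb : 2 * b < N) (h63 : ¬ (6 * a = N ∧ 3 * b = N)) :
    AlgebraicIndependent ℚ (pg N {a}) ∨ AlgebraicIndependent ℚ (pg N {b}) := by
  have key : ∀ c : ℕ, AlgebraicIndependent ℚ ![Real.pi, Real.Gamma ((c : ℝ) / N)] →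
      AlgebraicIndependent ℚ (pg N {c}) := by
    intro c hc
    have h4 := hc.comp (fun o : Option ({c} : Finset ℕ) => o.elim (0 : Fin 2) fun _ => 1) (by
      intro x y hxy
      rcases x with _ | x <;> rcases y with _ | y
      · rfl
      · simp at hxy
      · simp at hxy
      · have e1 := Finset.mem_singleton.1 x.2
        have e2 := Finset.mem_singleton.1 y.2
        congr 1
        exact Subtype.ext (e1.trans e2.symm))
    convert h4 using 1
    funext o
    rcases o with _ | x
    · simp [pg]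
    · have e1 := Finset.mem_singleton.1 x.2
      simp [pg, e1]
  rcases two_values hN h2 h ha hab hb h63 with h3 | h3
  · exact Or.inl (key a h3)
  · exact Or.inr (key b h3)

end Pool.Agent.Helper17.LR
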