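import Pool.Agent.Helper17.LR.Fl
import Pool.Agent.Helper34.LU.Fin

/-!
# pi and the ratios of Gamma values (MP_274814_nt): the theorem for the levels of LT2
-/

set_option autoImplicit false

namespace Pool.Agent.Helper17.LR

open Set Pool.Agent.Helper24.LU Pool.Agent.Helper24.LRDefs
open Pool.Agent.Helper32.LU (Good Lp Lf)
open Pool.Agent.Helper98.DJ (LR)

theorem hfull (q : ℕ) (hq : q ∈ Lf) : HasInd q (q.totient / 2) := by
  have core' : ∀ d n, 3 ≤ d → Good d n → HasInd d (n + 1) := by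
    intro d n h3 hg
    obtain ⟨a, b, c, e, h1, h2, h4, h5⟩ := hg
    exact Pool.Agent.Helper34.LUM.core d a b c e n h3 h1 h2
      (Pool.Agent.Helper32.LU.ne_of_card h4) h5
  obtain ⟨d, hd, h3, h4, hg⟩ := Pool.Agent.Helper32.LU.good_full q hq
  have hq0 : 0 < q := by
    have h : ∀ x ∈ Lf, 0 < x := by decide
    exact h q hq
  exact final_A Good core' q _ (h3.trans (Nat.le_of_dvd hq0 hd))
    (h4 ▸ tot_pos h3) ⟨d, hd, h3, hg⟩

theorem Lf_two : ∀ q ∈ Lf, 2 < q := by decide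

theorem hprim (q : ℕ) (hq : q ∈ Lp) : AlgebraicIndependent ℚ (fun a : Pidx q => Rr q a) :=
  (hfull q (Pool.Agent.Helper32.LU.Lp_sub q hq)).prim
    (Lf_two q (Pool.Agent.Helper32.LU.Lp_sub q hq))
    (fun p hp hd => Pool.Agent.Helper32.LU.crit q hq p hp hd)

theorem main :
    ((LR 5 ∧ LR 10) ∨ (LR 7 ∧ LR 8 ∧ LR 9 ∧ LR 18)) ∧
    (∀ N ∈ Lp, (LR N ∧ AlgebraicIndependent ℚ (pg N (PN N))) ∨ ∃ C ⊆ PN N, C.Nonempty ∧
      ∀ I ⊆ PN N, (AlgebraicIndependent ℚ (pg N I) ↔ ¬ C ⊆ I)) ∧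
    (∀ N ∈ Lf, ∀ I J : Finset ℕ, Disjoint I J → (∀ a ∈ I ∪ J, 1 ≤ a ∧ a < N) →
      LinearIndependent ℚ (fun (a : (I ∪ J : Finset ℕ)) (u : {u : ℕ // u.Coprime N}) =>
        Int.fract (((u : ℕ) : ℚ) * ((a : ℕ) : ℚ) / N) - 1 / 2) →
      AlgebraicIndependent ℚ (pg N I) ∨ AlgebraicIndependent ℚ (pg N J)) ∧
    (∀ N ∈ Lf, ∀ a b : ℕ, 1 ≤ a → a < b → 2 * b < N → ¬ (6 * a = N ∧ 3 * b = N) →
      AlgebraicIndependent ℚ (pg N {a}) ∨ AlgebraicIndependent ℚ (pg N {b})) := by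
  have hLR : ∀ q ∈ Lp, ¬ PA q → LR q := fun q hq hp =>
    LR_of_PA q (Lf_two q (Pool.Agent.Helper32.LU.Lp_sub q hq)) (hprim q hq) hp
  refine ⟨?_, ?_, ?_, ?_⟩
  · by_cases h10 : PA 10
    · right
      have h7 : ¬ PA 7 := fun h => not_PA_one (by
        simpa using exchange 70 (by norm_num) (hfull 70 (by decide)) (d1 := 10) (d2 := 7)
          (by norm_num) (by norm_num) h10 h)
      have h8 : ¬ PA 8 := fun h => not_PA_two (by
        simpa using exchange 40 (by norm_num) (hfull 40 (by decide)) (d1 := 10) (d2 := 8)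
          (by norm_num) (by norm_num) h10 h)
      have h18 : ¬ PA 18 := fun h => not_PA_two (by
        simpa using exchange 90 (by norm_num) (hfull 90 (by decide)) (d1 := 10) (d2 := 18)
          (by norm_num) (by norm_num) h10 h)
      have h9 : ¬ PA 9 := fun h => h18 (PA_mono (by norm_num) ⟨2, by norm_num⟩ h)
      exact ⟨hLR 7 (by decide) h7, hLR 8 (by decide) h8, hLR 9 (by decide) h9,
        hLR 18 (by decide) h18⟩
    · left
      have h5 : ¬ PA 5 := fun h => h10 (PA_mono (by norm_num) ⟨2, by norm_num⟩ h)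
      exact ⟨hLR 5 (by decide) h5, hLR 10 (by decide) h10⟩
  · intro N hN
    have h2 := Lf_two N (Pool.Agent.Helper32.LU.Lp_sub N hN)
    rcases circuit h2 (hprim N hN) with h | h
    · exact Or.inl ⟨LR_of_pg N h2 (hprim N hN) h, h⟩
    · exact Or.inr h
  · intro N hN I J hIJ ha hli
    exact two_sets (Lf_two N hN) (hfull N hN) I J hIJ ha hli
  · intro N hN a b ha hab hb h63
    exact two_single hN (Lf_two N hN) (hfull N hN) ha hab hb h63

end Pool.Agent.Helper17.LR
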