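import Pool.Agent.Helper17.LR.Od
import Pool.Agent.Helper24.GammaFull

/-!
# pi and the ratios of Gamma values (MP_274814_nt): two odd distributions
-/

set_option autoImplicit false

namespace Pool.Agent.Helper17.LR

open Pool.Agent.Helper24.GammaDist Pool.Agent.Helper24.GammaFull

/-- The elements killed by `p` are the multiples of `q / p`. -/
theorem sum_ker {M : Type*} [AddCommMonoid M] {q p m : ℕ} [NeZero q] (hq : q = p * m)
    (g : ZMod q → M) :
    ∑ t ∈ Finset.univ.filter (fun t : ZMod q => (p : ZMod q) * t = 0), g t =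
      ∑ k ∈ Finset.range p, g ((k * m : ℕ) : ZMod q) := by
  have hq0 : 0 < q := NeZero.pos q
  have hp : 0 < p := by
    rcases Nat.eq_zero_or_pos p with h | h
    · rw [h, zero_mul] at hq; omega
    · exact h
  have hm : 0 < m := by
    rcases Nat.eq_zero_or_pos m with h | h
    · rw [h, mul_zero] at hq; omega
    · exact h
  have hval : ∀ k, k < p → ((k * m : ℕ) : ZMod q).val = k * m := by
    intro k hk
    apply ZMod.val_cast_of_lt
    rw [hq]
    exact Nat.mul_lt_mul_of_pos_right hk hm
  symm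
  refine Finset.sum_bij (fun k _ => ((k * m : ℕ) : ZMod q)) ?_ ?_ ?_ ?_
  · intro k _
    rw [Finset.mem_filter]
    refine ⟨Finset.mem_univ _, ?_⟩
    rw [← Nat.cast_mul, ZMod.natCast_eq_zero_iff, hq]
    exact ⟨k, by ring⟩
  · intro k hk l hl h
    rw [Finset.mem_range] at hk hl
    have h1 : ((k * m : ℕ) : ZMod q).val = ((l * m : ℕ) : ZMod q).val := congrArg ZMod.val h
    rw [hval k hk, hval l hl] at h1
    exact Nat.eq_of_mul_eq_mul_right hm h1
  · intro t ht
    rw [Finset.mem_filter] at ht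
    have h1 : ((p * t.val : ℕ) : ZMod q) = 0 := by
      rw [Nat.cast_mul, ZMod.natCast_zmod_val]; exact ht.2
    rw [ZMod.natCast_eq_zero_iff] at h1
    have h2 : m ∣ t.val := by
      have h3 : p * m ∣ p * t.val := by rw [← hq]; exact h1
      exact Nat.dvd_of_mul_dvd_mul_left hp h3
    obtain ⟨k, hk⟩ := h2
    have h3 : k < p := by
      have h4 := ZMod.val_lt t
      rw [hk] at h4
      have h5 : m * k < m * p := by
        calc m * k < q := h4
          _ = m * p := by rw [hq, mul_comm]
      exact Nat.lt_of_mul_lt_mul_left h5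
    refine ⟨k, Finset.mem_range.2 h3, ?_⟩
    rw [mul_comm, ← hk, ZMod.natCast_zmod_val]
  · intro k _
    rfl

/-- An odd distribution on `ℚ / ℤ` restricted to level `q`. -/
theorem OD_of {M : Type*} [AddCommGroup M] {f : ℚ → M} (hf : IsOddDist f) (q : ℕ) [NeZero q] :
    OD q (fun a : ZMod q => f ((a.val : ℚ) / q)) := by
  have hq0 : 0 < q := NeZero.pos q
  have hq' : (q : ℚ) ≠ 0 := by exact_mod_cast hq0.ne'
  have hcast : ∀ (a : ZMod q) (n : ℕ), a = (n : ZMod q) →
      f ((a.val : ℚ) / q) = f ((n : ℚ) / q) := by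
    rintro a n rfl
    apply per_mod hf hq0
    rw [ZMod.val_natCast]
    exact Nat.mod_modEq n q
  refine ⟨?_, ?_⟩
  · intro a
    have h1 : f (((-a).val : ℚ) / q) = f (((q - a.val : ℕ) : ℚ) / q) := by
      apply hcast
      rw [Nat.cast_sub (ZMod.val_lt a).le, ZMod.natCast_self, ZMod.natCast_zmod_val, zero_sub]
    rw [h1, Nat.cast_sub (ZMod.val_lt a).le, sub_div, div_self hq', ← hf.odd,
      ← hf.per (-((a.val : ℚ) / q))]
    congr 1
    ring
  · intro p hp hpq a
    obtain ⟨m, hm⟩ := hpq
    have hp' : (p : ℚ) ≠ 0 := by exact_mod_cast hp.ne_zero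
    have hm' : (m : ℚ) ≠ 0 := by
      intro h
      apply hq'
      rw [hm, Nat.cast_mul, h, mul_zero]
    have hmq : (q : ℚ) = p * m := by exact_mod_cast hm
    rw [sum_ker hm (fun t => f (((a + t).val : ℚ) / q))]
    have h1 : ∀ k ∈ Finset.range p, f (((a + ((k * m : ℕ) : ZMod q)).val : ℚ) / q) =
        f (((a.val : ℚ) / m + k) / p) := by
      intro k _
      rw [hcast (a + ((k * m : ℕ) : ZMod q)) (a.val + k * m) (by
        rw [Nat.cast_add, ZMod.natCast_zmod_val])]
      congr 1
      rw [hmq]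
      push_cast
      field_simp
    rw [Finset.sum_congr rfl h1, hf.mul p hp.pos]
    rw [hcast ((p : ZMod q) * a) (p * a.val) (by rw [Nat.cast_mul, ZMod.natCast_zmod_val])]
    congr 1
    rw [hmq]
    push_cast
    field_simp

/-- The (scaled) first Bernoulli distribution. -/
def Bq (q : ℕ) (a : ZMod q) : ℚ := if a = 0 then 0 else 2 * (a.val : ℚ) - q

theorem lin_sum (n : ℕ) (r m q : ℚ) :
    ∑ k ∈ Finset.range n, (2 * (r + k * m) - q) = n * (2 * r - q) + m * n * (n - 1) := by
  induction n with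
  | zero => simp
  | succ n ih =>
    rw [Finset.sum_range_succ, ih]
    push_cast
    ring

theorem OD_Bq (q : ℕ) [NeZero q] : OD q (Bq q) := by
  have hq0 : 0 < q := NeZero.pos q
  refine ⟨?_, ?_⟩
  · intro a
    unfold Bq
    by_cases ha : a = 0
    · rw [ha, neg_zero, if_pos rfl, neg_zero]
    · rw [if_neg ha, if_neg (neg_ne_zero.2 ha)]
      have : NeZero a := ⟨ha⟩
      rw [ZMod.val_neg_of_ne_zero, Nat.cast_sub (ZMod.val_lt a).le]
      ring
  · intro p hp hpq a
    obtain ⟨m, hm⟩ := hpq
    have hm0 : 0 < m := by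
      rcases Nat.eq_zero_or_pos m with h | h
      · rw [h, mul_zero] at hm; omega
      · exact h
    set r := a.val % m with hr
    set j := a.val / m with hj
    have hrm : r < m := Nat.mod_lt _ hm0
    have ha : a = (r : ZMod q) + ((j * m : ℕ) : ZMod q) := by
      rw [← Nat.cast_add, hr, hj, Nat.mod_add_div', ZMod.natCast_zmod_val]
    have hker : (p : ZMod q) * ((j * m : ℕ) : ZMod q) = 0 := by
      rw [← Nat.cast_mul, ZMod.natCast_eq_zero_iff, hm]
      exact ⟨j, by ring⟩
    have h1 : ∑ t ∈ Finset.univ.filter (fun t : ZMod q => (p : ZMod q) * t = 0), Bq q (a + t) =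
        ∑ t ∈ Finset.univ.filter (fun t : ZMod q => (p : ZMod q) * t = 0), Bq q (r + t) := by
      refine Finset.sum_bij (fun t _ => ((j * m : ℕ) : ZMod q) + t) ?_ ?_ ?_ ?_
      · intro t ht
        rw [Finset.mem_filter] at ht ⊢
        exact ⟨Finset.mem_univ _, by rw [mul_add, hker, ht.2, add_zero]⟩
      · intro s _ t _ hst
        exact add_left_cancel hst
      · intro t ht
        rw [Finset.mem_filter] at ht
        refine ⟨t - ((j * m : ℕ) : ZMod q), ?_, by ring⟩
        rw [Finset.mem_filter]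
        exact ⟨Finset.mem_univ _, by rw [mul_sub, hker, ht.2, sub_zero]⟩
      · intro t _
        rw [ha]
        congr 1
        ring
    have h2 : (p : ZMod q) * a = ((p * r : ℕ) : ZMod q) := by
      rw [ha, mul_add, hker, add_zero, Nat.cast_mul]
    have hpr : p * r < q := by
      rw [hm]
      exact Nat.mul_lt_mul_of_pos_left hrm hp.pos
    rw [h1, h2, sum_ker hm (fun t => Bq q (r + t))]
    have h3 : ∀ n : ℕ, n < q → Bq q (n : ZMod q) = if n = 0 then 0 else 2 * (n : ℚ) - q := by
      intro n hn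
      unfold Bq
      have h4 : (n : ZMod q) = 0 ↔ n = 0 := by
        rw [ZMod.natCast_eq_zero_iff]
        constructor
        · intro h
          exact Nat.eq_zero_of_dvd_of_lt h hn
        · rintro rfl
          exact dvd_zero q
      by_cases h : n = 0
      · rw [if_pos (h4.2 h), if_pos h]
      · rw [if_neg (fun h' => h (h4.1 h')), if_neg h, ZMod.val_cast_of_lt hn]
    have h5 : ∀ k ∈ Finset.range p, Bq q ((r : ZMod q) + ((k * m : ℕ) : ZMod q)) =
        (if r + k * m = 0 then 0 else 2 * ((r : ℚ) + k * m) - q) := by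
      intro k hk
      rw [Finset.mem_range] at hk
      have hlt : r + k * m < q := by
        calc r + k * m < m + k * m := by omega
          _ = (k + 1) * m := by ring
          _ ≤ p * m := Nat.mul_le_mul_right m hk
          _ = q := hm.symm
      rw [← Nat.cast_add, h3 _ hlt]
      push_cast
      rfl
    rw [Finset.sum_congr rfl h5, h3 _ hpr]
    have hqm : (q : ℚ) = p * m := by rw [hm]; push_cast; ring
    by_cases hr0 : r = 0
    · rw [hr0, mul_zero, if_pos rfl]
      have h6 : ∀ k ∈ Finset.range p, (if 0 + k * m = 0 then (0 : ℚ) else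
          2 * (((0 : ℕ) : ℚ) + k * m) - q) =
          (2 * (((0 : ℕ) : ℚ) + k * m) - q) + (if k = 0 then (q : ℚ) else 0) := by
        intro k _
        by_cases hk : k = 0
        · subst hk; simp
        · rw [if_neg, if_neg hk, add_zero]
          rw [zero_add]
          exact (Nat.mul_pos (Nat.pos_of_ne_zero hk) hm0).ne'
      rw [Finset.sum_congr rfl h6, Finset.sum_add_distrib, lin_sum,
        Finset.sum_ite_eq' (Finset.range p) 0, if_pos (Finset.mem_range.2 hp.pos)]
      push_cast
      linear_combination (-(p : ℚ) + 1) * hqm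
    · have h6 : ∀ k ∈ Finset.range p, (if r + k * m = 0 then (0 : ℚ) else
          2 * ((r : ℚ) + k * m) - q) = (2 * ((r : ℚ) + k * m) - q) := by
        intro k _
        rw [if_neg (by omega)]
      rw [Finset.sum_congr rfl h6, lin_sum, if_neg (Nat.mul_ne_zero hp.ne_zero hr0)]
      push_cast
      linear_combination (-(p : ℚ) + 1) * hqm

theorem OD.unit {M : Type*} [AddCommGroup M] {q : ℕ} [NeZero q] {F : ZMod q → M} (hF : OD q F)
    (u : (ZMod q)ˣ) : OD q (fun a => F (u * a)) := by
  refine ⟨fun a => by rw [mul_neg, hF.neg], ?_⟩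
  intro p hp hpq a
  rw [show (u : ZMod q) * ((p : ZMod q) * a) = p * (u * a) by ring, ← hF.rel p hp hpq (u * a)]
  refine Finset.sum_bij (fun t _ => (u : ZMod q) * t) ?_ ?_ ?_ ?_
  · intro t ht
    rw [Finset.mem_filter] at ht ⊢
    refine ⟨Finset.mem_univ _, ?_⟩
    rw [show (p : ZMod q) * (u * t) = u * (p * t) by ring, ht.2, mul_zero]
  · intro s _ t _ hst
    exact (Units.mul_right_inj u).1 hst
  · intro t ht
    rw [Finset.mem_filter] at ht
    refine ⟨((u⁻¹ : (ZMod q)ˣ) : ZMod q) * t, ?_, ?_⟩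
    · rw [Finset.mem_filter]
      refine ⟨Finset.mem_univ _, ?_⟩
      rw [show (p : ZMod q) * (((u⁻¹ : (ZMod q)ˣ) : ZMod q) * t) =
        ((u⁻¹ : (ZMod q)ˣ) : ZMod q) * (p * t) by ring, ht.2, mul_zero]
    · rw [← mul_assoc, Units.mul_inv, one_mul]
  · intro t _
    rw [mul_add]

theorem OD.pi {M : Type*} [AddCommGroup M] {q : ℕ} [NeZero q] {J : Type*} {F : J → ZMod q → M}
    (hF : ∀ j, OD q (F j)) : OD q (fun a j => F j a) := by
  refine ⟨fun a => ?_, ?_⟩
  · funext j
    exact (hF j).neg a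
  · intro p hp hpq a
    funext j
    rw [Finset.sum_apply]
    exact (hF j).rel p hp hpq a

theorem OD.prod {M N : Type*} [AddCommGroup M] [AddCommGroup N] {q : ℕ} [NeZero q]
    {F : ZMod q → M} {G : ZMod q → N} (hF : OD q F) (hG : OD q G) :
    OD q (fun a => (F a, G a)) := by
  refine ⟨fun a => ?_, ?_⟩
  · exact Prod.ext (hF.neg a) (hG.neg a)
  · intro p hp hpq a
    refine Prod.ext ?_ ?_
    · rw [Prod.fst_sum]
      exact hF.rel p hp hpq a
    · rw [Prod.snd_sum]
      exact hG.rel p hp hpq a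

/-- all conjugates of the Bernoulli distribution -/
def bv (q : ℕ) (a : ZMod q) (u : (ZMod q)ˣ) : ℚ := Bq q (u * a)

theorem OD_bv (q : ℕ) [NeZero q] : OD q (bv q) :=
  OD.pi (F := fun (u : (ZMod q)ˣ) (a : ZMod q) => Bq q (u * a)) fun u => (OD_Bq q).unit u

end Pool.Agent.Helper17.LR
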