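import Pool.Agent.Helper24.GammaRank

/-!
# pi and the ratios of Gamma values (MP_274814_nt): the rank of odd distributions

An odd distribution of level `q` has rank at most `φ(q) / 2` (for every `q > 2`).
-/

set_option autoImplicit false

namespace Pool.Agent.Helper17.LR

open Module

/-- Odd distributions of level `q`. -/
structure OD {M : Type*} [AddCommGroup M] (q : ℕ) [NeZero q] (F : ZMod q → M) : Prop where
  neg : ∀ a, F (-a) = - F a
  rel : ∀ p : ℕ, p.Prime → p ∣ q → ∀ a : ZMod q,
    ∑ t ∈ Finset.univ.filter (fun t : ZMod q => (p : ZMod q) * t = 0), F (a + t) = F (p * a)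

theorem cast_zero_iff {q d : ℕ} [NeZero q] (hd : d ∣ q) (x : ZMod q) :
    ZMod.castHom hd (ZMod d) x = 0 ↔ x * ((q / d : ℕ) : ZMod q) = 0 := by
  have hd0 : 0 < d := Nat.pos_of_dvd_of_pos hd (NeZero.pos q)
  have hm : 0 < q / d := Nat.div_pos (Nat.le_of_dvd (NeZero.pos q) hd) hd0
  obtain ⟨n, rfl⟩ : ∃ n : ℕ, (n : ZMod q) = x := ⟨x.val, ZMod.natCast_zmod_val x⟩
  rw [map_natCast, ZMod.natCast_eq_zero_iff, ← Nat.cast_mul, ZMod.natCast_eq_zero_iff]
  have e := Nat.mul_div_cancel' hd
  constructor
  · intro h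
    have h1 := Nat.mul_dvd_mul_right h (q / d)
    rwa [e] at h1
  · intro h
    have h1 : d * (q / d) ∣ n * (q / d) := by rwa [e]
    exact Nat.dvd_of_mul_dvd_mul_right hm h1

theorem unit_one_iff {q d : ℕ} [NeZero q] (hd : d ∣ q) (u : (ZMod q)ˣ) :
    ZMod.unitsMap hd u = 1 ↔
      (u : ZMod q) * ((q / d : ℕ) : ZMod q) = ((q / d : ℕ) : ZMod q) := by
  have h1 : ZMod.unitsMap hd u = 1 ↔ ZMod.castHom hd (ZMod d) ((u : ZMod q) - 1) = 0 := by
    rw [map_sub, map_one, sub_eq_zero, ← Units.val_eq_one, ZMod.unitsMap_val]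
    rfl
  rw [h1, cast_zero_iff, sub_mul, one_mul, sub_eq_zero]

theorem eigen_zero (q : ℕ) [NeZero q] (χ : DirichletCharacter ℂ q) (E : ZMod q → ℂ)
    (hrel : ∀ p : ℕ, p.Prime → p ∣ q → ∀ a : ZMod q,
      ∑ t ∈ Finset.univ.filter (fun t : ZMod q => (p : ZMod q) * t = 0), E (a + t) = E (p * a))
    (hχ : ∀ (u : (ZMod q)ˣ) (a : ZMod q), E (u * a) = χ u * E a)
    (h0 : E ((q / χ.conductor : ℕ) : ZMod q) = 0) : ∀ a, E a = 0 := by
  have hq0 : q ≠ 0 := NeZero.ne q
  have key : ∀ d : ℕ, d ∣ q → ∀ a : ZMod q, (d : ZMod q) * a = 0 → E a = 0 := by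
    intro d
    induction d using Nat.strong_induction_on with
    | _ d ih =>
      intro hd a ha
      have hd0 : 0 < d := Nat.pos_of_dvd_of_pos hd (NeZero.pos q)
      have hdiv : ∀ a : ZMod q, (d : ZMod q) * a = 0 →
          E a = 0 ∨ ∃ u : (ZMod q)ˣ, a = u * ((q / d : ℕ) : ZMod q) := by
        intro a ha
        obtain ⟨g, hg, u, hu, rfl⟩ := ZMod.eq_unit_mul_divisor a
        obtain ⟨u, rfl⟩ := hu
        have hg0 : 0 < g := Nat.pos_of_dvd_of_pos hg (NeZero.pos q)
        have h1 : ((d * g : ℕ) : ZMod q) = 0 := by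
          push_cast
          have h : (u : ZMod q) * ((d : ZMod q) * g) = 0 := by rw [← ha]; ring
          exact (Units.mul_right_eq_zero u).1 h
        have h2 : q ∣ d * g := (ZMod.natCast_eq_zero_iff _ _).1 h1
        have h3 : q / g ∣ d := by
          rw [← Nat.div_mul_cancel hg] at h2
          exact Nat.dvd_of_mul_dvd_mul_right hg0 h2
        by_cases h4 : q / g = d
        · right
          exact ⟨u, by rw [← h4, Nat.div_div_self hg hq0]⟩
        · left
          have h5 : q / g < d := lt_of_le_of_ne (Nat.le_of_dvd hd0 h3) h4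
          apply ih _ h5 (h3.trans hd)
          have h6 : ((q / g * g : ℕ) : ZMod q) = 0 := by
            rw [Nat.div_mul_cancel hg, ZMod.natCast_self]
          push_cast at h6
          calc ((q / g : ℕ) : ZMod q) * ((u : ZMod q) * g)
              = u * (((q / g : ℕ) : ZMod q) * g) := by ring
            _ = 0 := by rw [h6, mul_zero]
      have hdd : (d : ZMod q) * ((q / d : ℕ) : ZMod q) = 0 := by
        rw [← Nat.cast_mul, Nat.mul_div_cancel' hd, ZMod.natCast_self]
      have hz : E ((q / d : ℕ) : ZMod q) = 0 := by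
        by_cases hc : χ.conductor ∣ d
        · by_cases hcd : χ.conductor = d
          · rw [← hcd]; exact h0
          · obtain ⟨m, hm⟩ := hc
            have hm1 : m ≠ 1 := by
              rintro rfl
              exact hcd (by rw [hm, mul_one])
            obtain ⟨p, hp, hpm⟩ := Nat.exists_prime_and_dvd hm1
            have hpd : p ∣ d := hm ▸ hpm.mul_left _
            have hd' : d / p ∣ q := (Nat.div_dvd_of_dvd hpd).trans hd
            have hcd' : χ.conductor ∣ d / p := by
              obtain ⟨k, rfl⟩ := hpm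
              rw [hm, show χ.conductor * (p * k) = p * (χ.conductor * k) by ring,
                Nat.mul_div_cancel_left _ hp.pos]
              exact Dvd.intro _ rfl
            have hlt : d / p < d := Nat.div_lt_self hd0 hp.one_lt
            have hqd : q / (d / p) = p * (q / d) := by
              obtain ⟨e, he⟩ := hpd
              obtain ⟨r, hr⟩ := hd
              have he0 : 0 < e := by
                rcases Nat.eq_zero_or_pos e with h | h
                · rw [h, mul_zero] at he; omega
                · exact h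
              have h1 : d / p = e := by rw [he]; exact Nat.mul_div_cancel_left _ hp.pos
              have h2 : q / d = r := by rw [hr]; exact Nat.mul_div_cancel_left _ hd0
              rw [h1, h2, hr, he, show p * e * r = e * (p * r) by ring]
              exact Nat.mul_div_cancel_left _ he0
            have hr := hrel p hp (hpd.trans hd) ((q / d : ℕ) : ZMod q)
            have hright : E ((p : ZMod q) * ((q / d : ℕ) : ZMod q)) = 0 := by
              apply ih _ hlt hd'
              rw [← Nat.cast_mul, ← hqd, ← Nat.cast_mul, Nat.mul_div_cancel' hd',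
                ZMod.natCast_self]
            rw [hright] at hr
            by_contra hne
            have hterm : ∀ t ∈ Finset.univ.filter (fun t : ZMod q => (p : ZMod q) * t = 0),
                E (((q / d : ℕ) : ZMod q) + t) = 0 ∨
                  E (((q / d : ℕ) : ZMod q) + t) = E ((q / d : ℕ) : ZMod q) := by
              intro t ht
              rw [Finset.mem_filter] at ht
              have hdt : (d : ZMod q) * (((q / d : ℕ) : ZMod q) + t) = 0 := by
                rw [mul_add, hdd, zero_add, ← Nat.div_mul_cancel hpd, Nat.cast_mul, mul_assoc,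
                  ht.2, mul_zero]
              rcases hdiv _ hdt with h | ⟨u, hu⟩
              · exact Or.inl h
              · right
                have h1 : (u : ZMod q) * ((q / (d / p) : ℕ) : ZMod q) =
                    ((q / (d / p) : ℕ) : ZMod q) := by
                  rw [hqd, Nat.cast_mul]
                  calc (u : ZMod q) * ((p : ZMod q) * ((q / d : ℕ) : ZMod q))
                      = p * (u * ((q / d : ℕ) : ZMod q)) := by ring
                    _ = p * (((q / d : ℕ) : ZMod q) + t) := by rw [hu]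
                    _ = p * ((q / d : ℕ) : ZMod q) := by rw [mul_add, ht.2, add_zero]
                have h2 : ZMod.unitsMap hd' u = 1 := (unit_one_iff hd' u).2 h1
                have h3 := (DirichletCharacter.mem_conductorSet_iff_conductor_dvd χ hd').2 hcd'
                have h4 := (DirichletCharacter.factorsThrough_iff_ker_unitsMap (χ := χ) hd').1 h3
                have h5 : χ.toUnitHom u = 1 := h4 h2
                have h6 : χ (u : ZMod q) = 1 := by
                  rw [← MulChar.coe_toUnitHom, h5, Units.val_one]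
                rw [hu, hχ, h6, one_mul]
            have hsum : ∑ t ∈ Finset.univ.filter (fun t : ZMod q => (p : ZMod q) * t = 0),
                (E (((q / d : ℕ) : ZMod q) + t) / E ((q / d : ℕ) : ZMod q)).re = 0 := by
              rw [← Complex.re_sum, ← Finset.sum_div, hr, zero_div, Complex.zero_re]
            have hnn : ∀ t ∈ Finset.univ.filter (fun t : ZMod q => (p : ZMod q) * t = 0),
                0 ≤ (E (((q / d : ℕ) : ZMod q) + t) / E ((q / d : ℕ) : ZMod q)).re := by
              intro t ht
              rcases hterm t ht with h | h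
              · rw [h, zero_div, Complex.zero_re]
              · rw [h, div_self hne, Complex.one_re]
                exact zero_le_one
            have h7 := (Finset.sum_eq_zero_iff_of_nonneg hnn).1 hsum 0 (by simp)
            rw [add_zero, div_self hne, Complex.one_re] at h7
            exact one_ne_zero h7
        · have h1 : ¬ d ∈ χ.conductorSet := fun h =>
            hc ((DirichletCharacter.mem_conductorSet_iff_conductor_dvd χ hd).1 h)
          have h2 : ¬ (ZMod.unitsMap hd).ker ≤ χ.toUnitHom.ker := fun h =>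
            h1 ((DirichletCharacter.factorsThrough_iff_ker_unitsMap (χ := χ) hd).2 h)
          rw [SetLike.not_le_iff_exists] at h2
          obtain ⟨u, hu1, hu2⟩ := h2
          have h3 := (unit_one_iff hd u).1 hu1
          have h4 := hχ u ((q / d : ℕ) : ZMod q)
          rw [h3] at h4
          have h5 : χ (u : ZMod q) ≠ 1 := by
            intro h
            apply hu2
            rw [MonoidHom.mem_ker]
            apply Units.ext
            rw [MulChar.coe_toUnitHom, h, Units.val_one]
          have h6 : (χ (u : ZMod q) - 1) * E ((q / d : ℕ) : ZMod q) = 0 := by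
            rw [sub_mul, one_mul, ← h4, sub_self]
          rcases mul_eq_zero.1 h6 with h | h
          · exact absurd (sub_eq_zero.1 h) h5
          · exact h
      rcases hdiv a ha with h | ⟨u, rfl⟩
      · exact h
      · rw [hχ, hz, mul_zero]
  intro a
  exact key q dvd_rfl a (by rw [ZMod.natCast_self, zero_mul])

/-- the component of a character -/
noncomputable def cmp (q : ℕ) [NeZero q] (χ : DirichletCharacter ℂ q) (F : ZMod q → ℂ)
    (a : ZMod q) : ℂ :=
  ∑ u : (ZMod q)ˣ, χ ((u⁻¹ : (ZMod q)ˣ) : ZMod q) * F (u * a)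

theorem cmp_unit (q : ℕ) [NeZero q] (χ : DirichletCharacter ℂ q) (F : ZMod q → ℂ)
    (v : (ZMod q)ˣ) (a : ZMod q) : cmp q χ F (v * a) = χ v * cmp q χ F a := by
  unfold cmp
  rw [Finset.mul_sum, ← Equiv.sum_comp (Equiv.mulRight v⁻¹)]
  refine Finset.sum_congr rfl fun u _ => ?_
  rw [Equiv.coe_mulRight]
  have h1 : (((u * v⁻¹)⁻¹ : (ZMod q)ˣ) : ZMod q) = v * ((u⁻¹ : (ZMod q)ˣ) : ZMod q) := by
    rw [mul_inv_rev, inv_inv, Units.val_mul]
  have h2 : ((u * v⁻¹ : (ZMod q)ˣ) : ZMod q) * (v * a) = u * a := by
    rw [Units.val_mul, mul_assoc, ← mul_assoc ((v⁻¹ : (ZMod q)ˣ) : ZMod q), Units.inv_mul,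
      one_mul]
  rw [h1, h2, map_mul]
  ring

theorem cmp_rel (q : ℕ) [NeZero q] (χ : DirichletCharacter ℂ q) (F : ZMod q → ℂ) (hF : OD q F)
    (p : ℕ) (hp : p.Prime) (hpq : p ∣ q) (a : ZMod q) :
    ∑ t ∈ Finset.univ.filter (fun t : ZMod q => (p : ZMod q) * t = 0), cmp q χ F (a + t) =
      cmp q χ F (p * a) := by
  unfold cmp
  rw [Finset.sum_comm]
  refine Finset.sum_congr rfl fun u _ => ?_
  rw [← Finset.mul_sum]
  congr 1
  rw [show (u : ZMod q) * ((p : ZMod q) * a) = p * (u * a) by ring, ← hF.rel p hp hpq (u * a)]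
  refine Finset.sum_bij (fun t _ => (u : ZMod q) * t) ?_ ?_ ?_ ?_
  · intro t ht
    rw [Finset.mem_filter] at ht ⊢
    refine ⟨Finset.mem_univ _, ?_⟩
    rw [show (p : ZMod q) * (u * t) = u * (p * t) by ring, ht.2, mul_zero]
  · intro s _ t _ hst
    exact (Units.mul_right_inj u).1 hst
  · intro t ht
    rw [Finset.mem_filter] at ht
    refine ⟨((u⁻¹ : (ZMod q)ˣ) : ZMod q) * t, ?_, ?_⟩
    · rw [Finset.mem_filter]
      refine ⟨Finset.mem_univ _, ?_⟩
      rw [show (p : ZMod q) * (((u⁻¹ : (ZMod q)ˣ) : ZMod q) * t) =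
        ((u⁻¹ : (ZMod q)ˣ) : ZMod q) * (p * t) by ring, ht.2, mul_zero]
    · rw [← mul_assoc, Units.mul_inv, one_mul]
  · intro t _
    rw [mul_add]

theorem cmp_even (q : ℕ) [NeZero q] (χ : DirichletCharacter ℂ q) (F : ZMod q → ℂ) (hF : OD q F)
    (hχ : ¬ χ.Odd) (a : ZMod q) : cmp q χ F a = 0 := by
  have heven : χ (-1) = 1 := (χ.even_or_odd).resolve_right hχ
  have h1 : cmp q χ F a = - cmp q χ F a := by
    unfold cmp
    conv_lhs => rw [← Equiv.sum_comp (Equiv.neg (ZMod q)ˣ)]
    rw [← Finset.sum_neg_distrib]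
    refine Finset.sum_congr rfl fun u _ => ?_
    rw [Equiv.neg_apply]
    have h2 : χ (((-u)⁻¹ : (ZMod q)ˣ) : ZMod q) = χ ((u⁻¹ : (ZMod q)ˣ) : ZMod q) := by
      have : (((-u)⁻¹ : (ZMod q)ˣ) : ZMod q) = (-1) * ((u⁻¹ : (ZMod q)ˣ) : ZMod q) := by
        rw [inv_neg, Units.val_neg]; ring
      rw [this, map_mul, heven, one_mul]
    rw [h2, Units.val_neg, neg_mul, hF.neg]
    ring
  have h3 : (2 : ℂ) * cmp q χ F a = 0 := by linear_combination h1
  exact (mul_eq_zero.mp h3).resolve_left two_ne_zero

theorem zero_of_cmp (q : ℕ) [NeZero q] (F : ZMod q → ℂ) (hF : OD q F)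
    (h : ∀ χ : DirichletCharacter ℂ q, χ.Odd → cmp q χ F ((q / χ.conductor : ℕ) : ZMod q) = 0)
    (a : ZMod q) : F a = 0 := by
  have h1 : ∀ χ : DirichletCharacter ℂ q, cmp q χ F a = 0 := by
    intro χ
    by_cases hχ : χ.Odd
    · exact eigen_zero q χ (cmp q χ F) (fun p hp hpq b => cmp_rel q χ F hF p hp hpq b)
        (fun u b => cmp_unit q χ F u b) (h χ hχ) a
    · exact cmp_even q χ F hF hχ a
  have h2 := Pool.Agent.Helper24.GammaChar.expansion q (fun u => F (u * a)) 1
  rw [Units.val_one, one_mul] at h2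
  rw [h2]
  refine Finset.sum_eq_zero fun χ _ => ?_
  have h3 := h1 χ
  unfold cmp at h3
  rw [h3, mul_zero, zero_mul]

theorem card_odd (q : ℕ) [NeZero q] (hq : 2 < q) :
    Nat.card {χ : DirichletCharacter ℂ q // χ.Odd} ≤ q.totient / 2 := by
  classical
  have hne : (-1 : ZMod q) ≠ 1 := by
    have : Fact (2 < q) := ⟨hq⟩
    exact ZMod.neg_one_ne_one
  have h1 := DirichletCharacter.sum_characters_eq_zero ℂ hne
  have h2 : ∀ χ : DirichletCharacter ℂ q, χ (-1) = 1 - 2 * (if χ.Odd then 1 else 0) := by
    intro χ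
    by_cases h : χ.Odd
    · rw [if_pos h, show χ (-1) = -1 from h]; norm_num
    · rw [if_neg h, show χ (-1) = 1 from (χ.even_or_odd).resolve_right h]; norm_num
  simp_rw [h2] at h1
  rw [Finset.sum_sub_distrib, ← Finset.mul_sum, Finset.sum_boole, Finset.sum_const,
    Finset.card_univ, nsmul_eq_mul, mul_one] at h1
  have h3 : Fintype.card (DirichletCharacter ℂ q) = q.totient := by
    rw [← Nat.card_eq_fintype_card]
    exact DirichletCharacter.card_eq_totient_of_hasEnoughRootsOfUnity ℂ q
  rw [h3] at h1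
  have h4 : q.totient = 2 * (Finset.univ.filter fun χ : DirichletCharacter ℂ q => χ.Odd).card := by
    have h5 : (q.totient : ℂ) =
        ((2 * (Finset.univ.filter fun χ : DirichletCharacter ℂ q => χ.Odd).card : ℕ) : ℂ) := by
      push_cast
      linear_combination h1
    exact_mod_cast h5
  rw [Nat.card_eq_fintype_card, Fintype.card_subtype]
  omega

/-- The rank of an odd distribution of level `q`. -/
theorem rank_OD {M : Type*} [AddCommGroup M] [Module ℚ M] (q : ℕ) [NeZero q] (hq : 2 < q)
    (v : ZMod q → M) (hv : OD q v) :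
    finrank ℚ (Submodule.span ℚ (Set.range v)) ≤ q.totient / 2 := by
  classical
  refine le_trans ?_ (card_odd q hq)
  set U := Submodule.span ℚ (Set.range v) with hU
  have hfin : FiniteDimensional ℚ U := FiniteDimensional.span_of_finite ℚ (Set.finite_range _)
  have hmem : ∀ u, v u ∈ U := fun u => Submodule.subset_span ⟨u, rfl⟩
  have hOD : ∀ l : U →ₗ[ℚ] ℂ, OD q (fun a => l ⟨v a, hmem a⟩) := by
    intro l
    refine ⟨?_, ?_⟩
    · intro a
      rw [← map_neg]
      congr 1
      exact Subtype.ext (hv.neg a)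
    · intro p hp hpq a
      rw [← map_sum]
      congr 1
      apply Subtype.ext
      rw [Submodule.coe_sum]
      exact hv.rel p hp hpq a
  let Φ : (U →ₗ[ℚ] ℂ) →ₗ[ℂ] ({χ : DirichletCharacter ℂ q // χ.Odd} → ℂ) :=
    { toFun := fun l χ => cmp q χ.1 (fun a => l ⟨v a, hmem a⟩) ((q / χ.1.conductor : ℕ) : ZMod q)
      map_add' := fun l m => by
        funext χ
        simp only [cmp, Pi.add_apply, ← Finset.sum_add_distrib, LinearMap.add_apply, mul_add]
      map_smul' := fun c l => by
        funext χ
        simp only [cmp, Pi.smul_apply, LinearMap.smul_apply, smul_eq_mul, RingHom.id_apply,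
          Finset.mul_sum]
        refine Finset.sum_congr rfl fun u _ => ?_
        ring }
  have hinj : Function.Injective Φ := by
    rw [← LinearMap.ker_eq_bot, LinearMap.ker_eq_bot']
    intro l hl
    have h1 : ∀ a, l ⟨v a, hmem a⟩ = 0 := by
      intro a
      exact zero_of_cmp q (fun a => l ⟨v a, hmem a⟩) (hOD l)
        (fun χ hχ => congrFun hl ⟨χ, hχ⟩) a
    ext ⟨x, hx⟩
    rw [LinearMap.zero_apply]
    have h2 : U ≤ (LinearMap.ker l).map U.subtype := by
      refine Submodule.span_le.mpr ?_
      rintro _ ⟨u, rfl⟩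
      exact ⟨⟨v u, hmem u⟩, h1 u, rfl⟩
    obtain ⟨y, hy, hyx⟩ := h2 hx
    have : y = ⟨x, hx⟩ := Subtype.ext hyx
    rw [← this]
    exact hy
  have h1 : finrank ℂ (U →ₗ[ℚ] ℂ) = finrank ℚ U := Module.finrank_linearMap_self ℚ ℂ U
  rw [← h1]
  refine (LinearMap.finrank_le_finrank_of_injective hinj).trans ?_
  rw [Module.finrank_fintype_fun_eq_card, Nat.card_eq_fintype_card]

end Pool.Agent.Helper17.LR
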