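import Pool.Agent.Helper17.LR.Al

/-!
# pi and the ratios of Gamma values (MP_274814_nt): pi and disjoint families
-/

set_option autoImplicit false

namespace Pool.Agent.Helper17.LR

open Set Module Pool.Agent.Helper24.LU Pool.Agent.Helper24.GammaTr

/-- The family version. -/
theorem indep_fam {ι : Type*} (q : ℕ) (hq : 2 < q) (h : HasInd q (q.totient / 2))
    (a : ι → ℕ) (ha : ∀ i, 1 ≤ a i ∧ a i < q)
    (hli : LinearIndependent ℚ (fun i (u : {u : ℕ // u.Coprime q}) =>
      Int.fract (((u : ℕ) : ℚ) * (a i : ℚ) / q) - 1 / 2)) :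
    AlgebraicIndependent ℚ (fun i => ((Rr q (a i) : ℝ) : ℂ)) := by
  have : NeZero q := ⟨by omega⟩
  have hq' : (q : ℚ) ≠ 0 := by exact_mod_cast NeZero.ne q
  set c : ι → ZMod q := fun i => (a i : ZMod q) with hc
  have hc0 : ∀ i, c i ≠ 0 := by
    intro i h3
    rw [hc] at h3
    simp only at h3
    rw [ZMod.natCast_eq_zero_iff] at h3
    exact absurd (Nat.le_of_dvd (ha i).1 h3) (by have := (ha i).2; omega)
  let T : ((ZMod q)ˣ → ℚ) →ₗ[ℚ] ({u : ℕ // u.Coprime q} → ℚ) :=
    { toFun := fun g u => (2 * (q : ℚ))⁻¹ * g (ZMod.unitOfCoprime u.1 u.2)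
      map_add' := fun f g => by funext u; simp only [Pi.add_apply]; ring
      map_smul' := fun r f => by
        funext u; simp only [Pi.smul_apply, smul_eq_mul, RingHom.id_apply]; ring }
  have hT : ∀ i, T (bv q (c i)) = fun u : {u : ℕ // u.Coprime q} =>
      Int.fract (((u : ℕ) : ℚ) * (a i : ℚ) / q) - 1 / 2 := by
    intro i
    funext u
    change (2 * (q : ℚ))⁻¹ * Bq q ((ZMod.unitOfCoprime u.1 u.2 : (ZMod q)ˣ) * c i) = _
    have h1 : ((ZMod.unitOfCoprime u.1 u.2 : (ZMod q)ˣ) : ZMod q) * c i =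
        ((u.1 * a i : ℕ) : ZMod q) := by
      rw [ZMod.coe_unitOfCoprime, Nat.cast_mul]
    have h2 : ((u.1 * a i : ℕ) : ZMod q) ≠ 0 := by
      rw [← h1]
      intro h
      exact hc0 i ((Units.mul_right_eq_zero _).1 h)
    rw [h1]
    unfold Bq
    rw [if_neg h2, ZMod.val_natCast, ← Nat.cast_mul, Int.fract_div_natCast_eq_div_natCast_mod]
    field_simp
  have hli2 : LinearIndependent ℚ (fun i => bv q (c i)) := by
    have h1 : (fun i (u : {u : ℕ // u.Coprime q}) =>
        Int.fract (((u : ℕ) : ℚ) * (a i : ℚ) / q) - 1 / 2) = T ∘ fun i => bv q (c i) := by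
      funext i
      exact (hT i).symm
    rw [h1] at hli
    exact LinearIndependent.of_comp T hli
  have hinj : Function.Injective c := by
    intro i j hij
    apply hli2.injective
    simp only
    rw [hij]
  have h5 := indep_of_lin q hq h (range c) ((linearIndepOn_range_iff hinj _).2 hli2)
  have h6 := h5.comp (fun i => (⟨c i, mem_range_self i⟩ : range c)) (by
    intro i j hij
    exact hinj (congrArg (fun z : range c => (z : ZMod q)) hij))
  have h7 : (fun i => ((Rr q (a i) : ℝ) : ℂ)) =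
      (fun a : range c => Rz q a) ∘ fun i => (⟨c i, mem_range_self i⟩ : range c) := by
    funext i
    simp only [Function.comp_apply, Rz, hc, ZMod.val_cast_of_lt (ha i).2]
  rw [h7]
  exact h6

/-- `π` is independent of one of two disjoint parts of an independent family of ratios. -/
theorem pi_or {ι : Type*} (q : ℕ) (a : ι → ℕ) (ha : ∀ i, 1 ≤ a i ∧ a i < q)
    (h : AlgebraicIndependent ℚ (fun i => ((Rr q (a i) : ℝ) : ℂ))) (I J : Set ι) [Finite I]
    [Finite J] (hIJ : Disjoint I J) :
    AlgebraicIndependent ℚ (gf q (fun i : I => a i)) ∨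
      AlgebraicIndependent ℚ (gf q (fun i : J => a i)) := by
  set B : ι → ℂ := fun i => ((Rr q (a i) : ℝ) : ℂ) with hB
  have hr : ∀ I : Set ι, (range fun i : I => ((Rr q (a i) : ℝ) : ℂ)) = B '' I := by
    intro I
    rw [image_eq_range]
  by_contra hcon
  rw [not_or] at hcon
  obtain ⟨h1, h2⟩ := hcon
  rw [gf_iff_rf q (fun i : I => a i) (fun i => ha i),
    rf_iff q (fun i : I => a i) (h.comp _ Subtype.val_injective), not_not, hr] at h1
  rw [gf_iff_rf q (fun i : J => a i) (fun i => ha i),
    rf_iff q (fun i : J => a i) (h.comp _ Subtype.val_injective), not_not, hr] at h2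
  have h3 := inter_cl B h _ I J h1 h2
  rw [hIJ.inter_eq] at h3
  exact pi_tr (cl_empty B _ h3)

/-- The unique circuit of `π`. -/
theorem pi_circuit {ι : Type*} [Finite ι] (q : ℕ) (a : ι → ℕ) (ha : ∀ i, 1 ≤ a i ∧ a i < q)
    (h : AlgebraicIndependent ℚ (fun i => ((Rr q (a i) : ℝ) : ℂ))) :
    AlgebraicIndependent ℚ (gf q a) ∨
      ∃ C : Set ι, C.Nonempty ∧ ∀ I : Set ι,
        AlgebraicIndependent ℚ (gf q (fun i : I => a i)) ↔ ¬ C ⊆ I := by
  set B : ι → ℂ := fun i => ((Rr q (a i) : ℝ) : ℂ) with hB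
  have hr : ∀ I : Set ι, (range fun i : I => ((Rr q (a i) : ℝ) : ℂ)) = B '' I := by
    intro I
    rw [image_eq_range]
  have hiff : ∀ I : Set ι, AlgebraicIndependent ℚ (gf q (fun i : I => a i)) ↔
      ¬ IsAlgebraic (Algebra.adjoin ℚ (B '' I)) (Real.pi : ℂ) := by
    intro I
    rw [gf_iff_rf q (fun i : I => a i) (fun i => ha i),
      rf_iff q (fun i : I => a i) (h.comp _ Subtype.val_injective), hr]
  have hiff0 : AlgebraicIndependent ℚ (gf q a) ↔
      ¬ IsAlgebraic (Algebra.adjoin ℚ (B '' univ)) (Real.pi : ℂ) := by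
    rw [gf_iff_rf q _ ha, rf_iff q _ h, image_univ]
  by_cases hu : IsAlgebraic (Algebra.adjoin ℚ (B '' univ)) (Real.pi : ℂ)
  · right
    set C : Set ι := ⋂₀ {I : Set ι | IsAlgebraic (Algebra.adjoin ℚ (B '' I)) (Real.pi : ℂ)}
      with hC
    have hmem : IsAlgebraic (Algebra.adjoin ℚ (B '' C)) (Real.pi : ℂ) := by
      have hfin : {I : Set ι | IsAlgebraic (Algebra.adjoin ℚ (B '' I)) (Real.pi : ℂ)}.Finite :=
        Set.toFinite _
      have key : ∀ S : Set (Set ι), S.Finite →
          (∀ I ∈ S, IsAlgebraic (Algebra.adjoin ℚ (B '' I)) (Real.pi : ℂ)) →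
          IsAlgebraic (Algebra.adjoin ℚ (B '' ⋂₀ S)) (Real.pi : ℂ) := by
        intro S hS
        induction S, hS using Set.Finite.induction_on with
        | empty =>
          intro _
          rw [sInter_empty]
          exact hu
        | insert _ _ ih =>
          intro hI
          rw [sInter_insert]
          exact inter_cl B h _ _ _ (hI _ (mem_insert _ _))
            (ih fun I hI' => hI I (mem_insert_of_mem _ hI'))
      exact key _ hfin fun I hI => hI
    refine ⟨C, ?_, ?_⟩
    · by_contra hne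
      rw [not_nonempty_iff_eq_empty] at hne
      rw [hne] at hmem
      exact pi_tr (cl_empty B _ hmem)
    · intro I
      rw [hiff, not_iff_not]
      constructor
      · intro hI
        exact sInter_subset_of_mem hI
      · intro hCI
        exact cl_mono B _ hCI hmem
  · left
    exact hiff0.2 hu

end Pool.Agent.Helper17.LR
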