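import Mathlib

/-!
# pi and the ratios of Gamma values (MP_274814_nt): two Bernoulli vectors are not proportional

For `1 ≤ a < b < N / 2` the vectors `({u a / N} - 1/2)_u` and `({u b / N} - 1/2)_u` (`u` prime to
`N`) are linearly independent, except for `a / N = 1/6`, `b / N = 1/3`.
-/

set_option autoImplicit false

namespace Pool.Agent.Helper17.LR

theorem lift_u {N m c : ℕ} [NeZero N] (hm : m ∣ N) (hc : c.Coprime m) :
    ∃ w : ℕ, w.Coprime N ∧ w ≡ c [MOD m] := by
  obtain ⟨u, hu⟩ := ZMod.unitsMap_surjective hm (ZMod.unitOfCoprime c hc)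
  refine ⟨(u : ZMod N).val, ZMod.val_coe_unit_coprime u, ?_⟩
  rw [← ZMod.natCast_eq_natCast_iff]
  have h1 := congrArg (fun x : (ZMod m)ˣ => (x : ZMod m)) hu
  simp only [ZMod.coe_unitOfCoprime] at h1
  rw [← h1, ZMod.unitsMap_val, ZMod.natCast_val]

theorem exists_u {N a : ℕ} (ha : 1 ≤ a) (haN : a < N) :
    ∃ u : ℕ, u.Coprime N ∧ (u * a) % N = Nat.gcd a N := by
  have : NeZero N := ⟨by omega⟩
  have hg : 0 < Nat.gcd a N := Nat.gcd_pos_of_pos_left _ ha
  obtain ⟨g, a', n, hg0, hcop, rfl, rfl⟩ : ∃ g a' n : ℕ, 0 < g ∧ a'.Coprime n ∧ a = a' * g ∧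
      N = n * g := by
    obtain ⟨g, a', n, h1, h2, h3, h4⟩ := Nat.exists_coprime' (m := a) (n := N) hg
    exact ⟨g, a', n, h1, h2, h3, h4⟩
  have hn0 : 0 < n := by
    rcases Nat.eq_zero_or_pos n with h | h
    · rw [h, zero_mul] at haN; omega
    · exact h
  have hgcd : Nat.gcd (a' * g) (n * g) = g := by
    rw [Nat.gcd_mul_right, hcop.gcd_eq_one, one_mul]
  obtain ⟨c, hc⟩ : ∃ c : ℕ, (c * a') ≡ 1 [MOD n] := by
    obtain ⟨c, -, hc⟩ := Nat.exists_mul_mod_eq_of_coprime 1 hcop hn0.ne'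
    refine ⟨c, ?_⟩
    rw [mul_comm]
    exact hc
  have hcn : c.Coprime n := by
    have h1 : (c * a').Coprime n := by
      have h2 := hc.gcd_eq
      rw [Nat.gcd_one_left] at h2
      exact h2
    exact Nat.Coprime.coprime_mul_right h1
  obtain ⟨u, hu1, hu2⟩ := lift_u (N := n * g) (m := n) (Dvd.intro _ rfl) hcn
  refine ⟨u, hu1, ?_⟩
  rw [hgcd]
  have h1 : u * a' ≡ 1 [MOD n] := (hu2.mul_right a').trans hc
  have h2 : u * a' * g ≡ 1 * g [MOD n * g] := h1.mul_right' g
  have h3 : (u * (a' * g)) % (n * g) = (1 * g) % (n * g) := by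
    rw [← mul_assoc]
    exact h2
  rw [h3, one_mul]
  apply Nat.mod_eq_of_lt
  have h4 : 1 ≤ a' := by
    rcases Nat.eq_zero_or_pos a' with h | h
    · rw [h, zero_mul] at ha; omega
    · exact h
  calc g = 1 * g := (one_mul g).symm
    _ ≤ a' * g := Nat.mul_le_mul_right g h4
    _ < n * g := haN

theorem tot_eq {N n L : ℕ} [NeZero N] (hn : n ∣ L) (hL : L ∣ N)
    (hker : ∀ w : ℕ, w.Coprime N → w ≡ 1 [MOD n] → w ≡ 1 [MOD L]) :
    n.totient = L.totient := by
  have hL0 : 0 < L := Nat.pos_of_dvd_of_pos hL (NeZero.pos N)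
  have hn0 : 0 < n := Nat.pos_of_dvd_of_pos hn hL0
  have : NeZero L := ⟨hL0.ne'⟩
  have : NeZero n := ⟨hn0.ne'⟩
  have hinj : Function.Injective (ZMod.unitsMap hn) := by
    rw [injective_iff_map_eq_one]
    intro x hx
    obtain ⟨w, rfl⟩ := ZMod.unitsMap_surjective hL x
    have h1 : ZMod.unitsMap (hn.trans hL) w = 1 := by
      rw [← hx, ← ZMod.unitsMap_comp hn hL]
      rfl
    have h2 : (w : ZMod N).val ≡ 1 [MOD n] := by
      rw [← ZMod.natCast_eq_natCast_iff]
      have h3 := congrArg (fun x : (ZMod n)ˣ => (x : ZMod n)) h1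
      simp only [Units.val_one, ZMod.unitsMap_val] at h3
      rw [ZMod.natCast_val, h3, Nat.cast_one]
    have h3 := hker _ (ZMod.val_coe_unit_coprime w) h2
    rw [← ZMod.natCast_eq_natCast_iff] at h3
    apply Units.ext
    rw [ZMod.unitsMap_val, Units.val_one, ← ZMod.natCast_val, h3, Nat.cast_one]
  have hbij : Function.Bijective (ZMod.unitsMap hn) :=
    ⟨hinj, ZMod.unitsMap_surjective hn⟩
  have h5 := Fintype.card_of_bijective hbij
  rw [ZMod.card_units_eq_totient, ZMod.card_units_eq_totient] at h5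
  exact h5.symm

/-- the residue of `w g` modulo `N = n g` -/
theorem mod_mul {n g w : ℕ} : (w * g) % (n * g) = (w % n) * g := by
  rw [Nat.mul_mod_mul_right]

theorem modEq_lcm {m n x y : ℕ} (h1 : x ≡ y [MOD m]) (h2 : x ≡ y [MOD n]) :
    x ≡ y [MOD Nat.lcm m n] := by
  rw [Nat.modEq_iff_dvd] at h1 h2 ⊢
  rw [Int.natCast_dvd] at h1 h2 ⊢
  exact Nat.lcm_dvd h1 h2

/-- **Two Bernoulli vectors.** -/
theorem pair_gen {N a b : ℕ} (ha : 1 ≤ a) (hab : a < b) (hb : 2 * b < N)
    (h63 : ¬ (6 * a = N ∧ 3 * b = N)) :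
    ∃ u : ℕ, u.Coprime N ∧
      ((2 * ((1 * a) % N : ℕ) - N : ℤ)) * (2 * ((u * b) % N : ℕ) - N) ≠
      (2 * ((u * a) % N : ℕ) - N) * (2 * ((1 * b) % N : ℕ) - N) := by
  by_contra hcon
  push Not at hcon
  have : NeZero N := ⟨by omega⟩
  rw [one_mul, one_mul, Nat.mod_eq_of_lt (by omega : a < N), Nat.mod_eq_of_lt (by omega : b < N)]
    at hcon
  -- the two divisors
  obtain ⟨ua, hua, hga⟩ := exists_u ha (by omega : a < N)
  obtain ⟨ub, hub, hgb⟩ := exists_u (by omega : 1 ≤ b) (by omega : b < N)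
  set g := Nat.gcd a N with hg
  set h := Nat.gcd b N with hh
  have hga1 : g ∣ a := Nat.gcd_dvd_left a N
  have hgN : g ∣ N := Nat.gcd_dvd_right a N
  have hhb : h ∣ b := Nat.gcd_dvd_left b N
  have hhN : h ∣ N := Nat.gcd_dvd_right b N
  have hg0 : 0 < g := Nat.gcd_pos_of_pos_left _ ha
  have hh0 : 0 < h := Nat.gcd_pos_of_pos_left _ (by omega)
  have hgle : g ≤ a := Nat.le_of_dvd ha hga1
  have hhle : h ≤ b := Nat.le_of_dvd (by omega) hhb
  -- bounds for the residues
  have hbd : ∀ (x k : ℕ), k ∣ x → k ∣ N → ∀ u : ℕ, (u * x) % N ≠ 0 →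
      k ≤ (u * x) % N ∧ (u * x) % N + k ≤ N := by
    intro x k hkx hkN u hne
    have h1 : k ∣ (u * x) % N := (Nat.dvd_mod_iff hkN).2 (hkx.mul_left u)
    have h2 : (u * x) % N < N := Nat.mod_lt _ (by omega)
    refine ⟨Nat.le_of_dvd (Nat.pos_of_ne_zero hne) h1, ?_⟩
    have h3 : k ∣ N - (u * x) % N := Nat.dvd_sub hkN h1
    have h4 := Nat.le_of_dvd (by omega) h3
    omega
  have hnz : ∀ (x : ℕ), 1 ≤ x → x < N → ∀ u : ℕ, u.Coprime N → (u * x) % N ≠ 0 := by
    intro x hx1 hx2 u hu h0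
    have h1 : N ∣ u * x := Nat.dvd_of_mod_eq_zero h0
    have h2 : N ∣ x := (Nat.Coprime.dvd_of_dvd_mul_left hu.symm h1)
    exact absurd (Nat.le_of_dvd hx1 h2) (by omega)
  -- the relation at `ua` and `ub`
  have e1 := hcon ua hua
  have e2 := hcon ub hub
  rw [hga] at e1
  rw [hgb] at e2
  obtain ⟨b1, b2⟩ := hbd b h hhb hhN ua (hnz b (by omega) (by omega) ua hua)
  obtain ⟨b3, b4⟩ := hbd a g hga1 hgN ub (hnz a ha (by omega) ub hub)
  have hA : (0 : ℤ) < N - 2 * a := by omega
  have hB : (0 : ℤ) < N - 2 * b := by omega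
  have hG : (0 : ℤ) < N - 2 * g := by omega
  have hH : (0 : ℤ) < N - 2 * h := by omega
  -- E1
  have hE : ((N : ℤ) - 2 * a) * (N - 2 * h) = (N - 2 * b) * (N - 2 * g) ∧
      (ua * b) % N = h := by
    set r : ℤ := (((ua * b) % N : ℕ) : ℤ) with hr
    set s : ℤ := (((ub * a) % N : ℕ) : ℤ) with hs
    have c1 : (h : ℤ) ≤ r := by rw [hr]; exact_mod_cast b1
    have c2 : r + h ≤ N := by rw [hr]; exact_mod_cast b2
    have c3 : (g : ℤ) ≤ s := by rw [hs]; exact_mod_cast b3
    have c4 : s + g ≤ N := by rw [hs]; exact_mod_cast b4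
    have e1' : ((N : ℤ) - 2 * a) * (N - 2 * r) = (N - 2 * b) * (N - 2 * g) := by linarith
    have e2' : ((N : ℤ) - 2 * a) * (N - 2 * h) = (N - 2 * b) * (N - 2 * s) := by linarith
    have f1 : ((N : ℤ) - 2 * a) * (N - 2 * h) ≤ (N - 2 * b) * (N - 2 * g) := by
      rw [e2']
      exact mul_le_mul_of_nonneg_left (by linarith) hB.le
    have f2 : (N - 2 * b) * (N - 2 * g) ≤ ((N : ℤ) - 2 * a) * (N - 2 * h) := by
      rw [← e1']
      exact mul_le_mul_of_nonneg_left (by linarith) hA.le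
    have f3 := le_antisymm f1 f2
    refine ⟨f3, ?_⟩
    have f4 : ((N : ℤ) - 2 * a) * (N - 2 * r) = ((N : ℤ) - 2 * a) * (N - 2 * h) := by
      rw [e1', f3]
    have f5 := mul_left_cancel₀ hA.ne' f4
    have f6 : r = h := by linarith
    rw [hr] at f6
    exact_mod_cast f6
  obtain ⟨hE1, hE2⟩ := hE
  -- the relation for the divisors
  have hrel : ∀ w : ℕ, w.Coprime N → ((N : ℤ) - 2 * a) * (N - 2 * ((w * h) % N : ℕ)) =
      (N - 2 * b) * (N - 2 * ((w * g) % N : ℕ)) := by
    intro w hw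
    have e3 := hcon (w * ua) (hw.mul_left hua)
    have e4 : (w * ua * b) % N = (w * h) % N := by
      rw [mul_assoc, Nat.mul_mod, hE2, ← Nat.mul_mod_mod, Nat.mod_mul_mod]
      rw [Nat.mul_mod_mod]
    have e5 : (w * ua * a) % N = (w * g) % N := by
      rw [mul_assoc, Nat.mul_mod, hga, ← Nat.mul_mod_mod, Nat.mod_mul_mod]
      rw [Nat.mul_mod_mod]
    rw [e4, e5] at e3
    linarith
  have hgh : g < h := by
    by_contra hle
    push Not at hle
    have h1 : (N : ℤ) - 2 * g ≤ N - 2 * h := by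
      have : (h : ℤ) ≤ g := by exact_mod_cast hle
      linarith
    have h2 : (N : ℤ) - 2 * b < N - 2 * a := by
      have : (a : ℤ) < b := by exact_mod_cast hab
      linarith
    have h3 : (N - 2 * b) * ((N : ℤ) - 2 * g) < (N - 2 * a) * (N - 2 * h) := by
      calc (N - 2 * b) * ((N : ℤ) - 2 * g) ≤ (N - 2 * b) * (N - 2 * h) :=
            mul_le_mul_of_nonneg_left h1 hB.le
        _ < (N - 2 * a) * (N - 2 * h) := mul_lt_mul_of_pos_right h2 hH
    linarith
  obtain ⟨n, hn⟩ := hgN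
  obtain ⟨m, hm⟩ := hhN
  have hng : N = n * g := by rw [hn, mul_comm]
  have hmh : N = m * h := by rw [hm, mul_comm]
  have hn0 : 0 < n := by
    rcases Nat.eq_zero_or_pos n with h0 | h0
    · rw [h0, zero_mul] at hng; omega
    · exact h0
  have hm2 : 2 < m := by
    by_contra hle
    push Not at hle
    have : m * h ≤ 2 * h := Nat.mul_le_mul_right h hle
    omega
  have hmn : m < n := by
    by_contra hle
    push Not at hle
    have h1 : n * g < n * h := Nat.mul_lt_mul_of_pos_left hgh hn0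
    have h2 : n * h ≤ m * h := Nat.mul_le_mul_right h hle
    omega
  -- kernels
  have hk : ∀ w : ℕ, w.Coprime N → (w ≡ 1 [MOD n] ↔ w ≡ 1 [MOD m]) := by
    intro w hw
    have e3 := hrel w hw
    have hwn : w ≡ 1 [MOD n] ↔ (w * g) % N = g := by
      constructor
      · intro h1
        have h2 := h1.mul_right' g
        rw [one_mul, ← hng] at h2
        have h3 : (w * g) % N = g % N := h2
        rw [h3, Nat.mod_eq_of_lt (by omega)]
      · intro h1
        have h2 : w * g ≡ 1 * g [MOD n * g] := by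
          rw [one_mul, ← hng]
          change (w * g) % N = g % N
          rw [h1, Nat.mod_eq_of_lt (by omega)]
        exact Nat.ModEq.mul_right_cancel' hg0.ne' h2
    have hwm : w ≡ 1 [MOD m] ↔ (w * h) % N = h := by
      constructor
      · intro h1
        have h2 := h1.mul_right' h
        rw [one_mul, ← hmh] at h2
        have h3 : (w * h) % N = h % N := h2
        rw [h3, Nat.mod_eq_of_lt (by omega)]
      · intro h1
        have h2 : w * h ≡ 1 * h [MOD m * h] := by
          rw [one_mul, ← hmh]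
          change (w * h) % N = h % N
          rw [h1, Nat.mod_eq_of_lt (by omega)]
        exact Nat.ModEq.mul_right_cancel' hh0.ne' h2
    rw [hwn, hwm]
    constructor
    · intro h1
      rw [h1, ← hE1] at e3
      have h2 := mul_left_cancel₀ hA.ne' e3
      have h3 : (((w * h) % N : ℕ) : ℤ) = h := by linarith
      exact_mod_cast h3
    · intro h1
      rw [h1, hE1] at e3
      have h2 := mul_left_cancel₀ hB.ne' e3
      have h3 : (((w * g) % N : ℕ) : ℤ) = g := by linarith
      exact_mod_cast h3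
  have hnN : n ∣ N := ⟨g, hng⟩
  have hmN : m ∣ N := ⟨h, hmh⟩
  have hL : Nat.lcm m n ∣ N := Nat.lcm_dvd hmN hnN
  have t1 : n.totient = (Nat.lcm m n).totient := by
    apply tot_eq (N := N) (Nat.dvd_lcm_right m n) hL
    intro w hw h1
    exact modEq_lcm ((hk w hw).1 h1) h1
  have t2 : m.totient = (Nat.lcm m n).totient := by
    apply tot_eq (N := N) (Nat.dvd_lcm_left m n) hL
    intro w hw h1
    exact modEq_lcm h1 ((hk w hw).2 h1)
  have hL0 : 0 < Nat.lcm m n := Nat.lcm_pos (by omega) hn0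
  have hnL : n ≤ Nat.lcm m n := Nat.le_of_dvd hL0 (Nat.dvd_lcm_right m n)
  have l2 : 2 * m = Nat.lcm m n := by
    rcases Nat.eq_or_eq_of_totient_eq_totient (Nat.dvd_lcm_left m n) t2 with h1 | h1
    · omega
    · exact h1
  have l1 : n = 2 * m := by
    rcases Nat.eq_or_eq_of_totient_eq_totient (Nat.dvd_lcm_right m n) t1 with h1 | h1
    · omega
    · omega
  have hodd : Odd m := by
    by_contra hev
    rw [Nat.not_odd_iff_even] at hev
    have h1 := Nat.totient_two_mul_of_even hev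
    rw [l2, ← t2] at h1
    have h2 : 0 < m.totient := Nat.totient_pos.2 (by omega)
    omega
  -- `h = 2 g`
  have hh2 : h = 2 * g := by
    have h1 : m * h = m * (2 * g) := by
      rw [← hmh, hng, l1]; ring
    exact Nat.eq_of_mul_eq_mul_left (by omega) h1
  -- the test element
  have hcop : (m + 2).Coprime n := by
    rw [l1]
    apply Nat.Coprime.mul_right
    · rw [Nat.coprime_two_right]
      exact hodd.add_even even_two
    · rw [Nat.coprime_self_add_left]
      exact Nat.coprime_two_left.2 hodd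
  obtain ⟨w, hw, hwm⟩ := lift_u (N := N) hnN hcop
  have e3 := hrel w hw
  have r1 : (w * g) % N = (m + 2) * g := by
    have h2 := hwm.mul_right' g
    rw [← hng] at h2
    have h3 : (w * g) % N = ((m + 2) * g) % N := h2
    rw [h3]
    apply Nat.mod_eq_of_lt
    rw [hng, l1]
    exact Nat.mul_lt_mul_of_pos_right (by omega) hg0
  have r2 : (w * h) % N = 4 * g := by
    have h1 : w ≡ m + 2 [MOD m] := hwm.of_dvd ⟨2, by rw [l1, mul_comm]⟩
    have h2 : w ≡ 2 [MOD m] := by
      refine h1.trans ?_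
      change (m + 2) % m = 2 % m
      rw [Nat.add_mod_left]
    have h3 := h2.mul_right' h
    rw [← hmh] at h3
    have h4 : (w * h) % N = (2 * h) % N := h3
    rw [h4, hh2]
    have h5 : 2 * (2 * g) = 4 * g := by ring
    rw [h5]
    apply Nat.mod_eq_of_lt
    rw [hng, l1]
    exact Nat.mul_lt_mul_of_pos_right (by omega) hg0
  rw [r1, r2] at e3
  have hN : (N : ℤ) = 2 * m * g := by
    have : N = 2 * m * g := by rw [hng, l1]
    exact_mod_cast this
  have hgz : (0 : ℤ) < g := by exact_mod_cast hg0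
  have e4 : ((N : ℤ) - 2 * a) * (m - 4) = - 2 * (N - 2 * b) := by
    have h1 : (2 * (g : ℤ)) * (((N : ℤ) - 2 * a) * (m - 4)) =
        (2 * (g : ℤ)) * (- 2 * (N - 2 * b)) := by
      push_cast at e3
      have h2 : ((N : ℤ) - 2 * a) * (2 * m * g - 2 * (4 * g)) =
          (N - 2 * b) * (2 * m * g - 2 * ((m + 2) * g)) := by
        rw [← hN]; exact e3
      linear_combination h2
    exact mul_left_cancel₀ (by positivity) h1
  have hm4 : m < 4 := by
    by_contra hle
    push Not at hle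
    have h1 : (0 : ℤ) ≤ (m : ℤ) - 4 := by
      have : (4 : ℤ) ≤ m := by exact_mod_cast hle
      linarith
    have h2 : (0 : ℤ) ≤ ((N : ℤ) - 2 * a) * (m - 4) := mul_nonneg hA.le h1
    linarith
  have hm3 : m = 3 := by omega
  rw [hm3] at e4
  have e5 : (N : ℤ) - 2 * a = 2 * (N - 2 * b) := by
    push_cast at e4
    linarith
  -- `b = N / 3`
  obtain ⟨k, hk'⟩ := hhb
  have hN3 : N = 3 * h := by rw [hmh, hm3]
  have hk1 : k = 1 := by
    have h1 : 1 ≤ k := by
      rcases Nat.eq_zero_or_pos k with h0 | h0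
      · rw [h0, mul_zero] at hk'; omega
      · exact h0
    by_contra hne
    have h2 : 2 ≤ k := by omega
    have h3 : h * 2 ≤ h * k := Nat.mul_le_mul_left h h2
    omega
  have hb3 : 3 * b = N := by rw [hk', hk1, mul_one, hN3]
  apply h63
  refine ⟨?_, hb3⟩
  have hb3z : (3 : ℤ) * b = N := by exact_mod_cast hb3
  have : (6 : ℤ) * a = N := by linarith
  exact_mod_cast this

end Pool.Agent.Helper17.LR
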