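import Pool.Agent.Helper17.LR.Cv
import Pool.Agent.Helper17.LR.Pr

/-!
# pi and values of the Gamma function (MP_274814_nt): at most one exceptional rational number
-/

set_option autoImplicit false

namespace Pool.Agent.Helper17.LR

open Set Module Pool.Agent.Helper24.LU Pool.Agent.Helper24.GammaTr

theorem pair_li_gen {N : ℕ} {a b : ℕ} (ha : 1 ≤ a) (hab : a < b) (hb : 2 * b < N)
    (h63 : ¬ (6 * a = N ∧ 3 * b = N)) :
    LinearIndependent ℚ (fun (i : Fin 2) (u : {u : ℕ // u.Coprime N}) =>
      Int.fract (((u : ℕ) : ℚ) * ((![a, b] : Fin 2 → ℕ) i : ℚ) / N) - 1 / 2) := by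
  have hN0 : (N : ℚ) ≠ 0 := by
    have : N ≠ 0 := by omega
    exact_mod_cast this
  obtain ⟨u, hu, hdet'⟩ := pair_gen ha hab hb h63
  have hdet : bn N 1 a * bn N u b ≠ bn N u a * bn N 1 b := hdet'
  have hval : ∀ u x : ℕ, Int.fract ((u : ℚ) * (x : ℚ) / N) - 1 / 2 =
      (bn N u x : ℚ) / (2 * N) := by
    intro u x
    have e : (bn N u x : ℚ) = 2 * ((u * x % N : ℕ) : ℚ) - N := by
      unfold bn
      rw [Int.cast_sub, Int.cast_mul, Int.cast_ofNat, Int.cast_natCast, Int.cast_natCast]
    rw [← Nat.cast_mul, Int.fract_div_natCast_eq_div_natCast_mod, e]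
    field_simp
  have h1 : (fun (i : Fin 2) (u : {u : ℕ // u.Coprime N}) =>
      Int.fract (((u : ℕ) : ℚ) * ((![a, b] : Fin 2 → ℕ) i : ℚ) / N) - 1 / 2) =
      ![fun u : {u : ℕ // u.Coprime N} => (bn N u a : ℚ) / (2 * N),
        fun u : {u : ℕ // u.Coprime N} => (bn N u b : ℚ) / (2 * N)] := by
    funext i
    fin_cases i
    · funext u
      exact hval u a
    · funext u
      exact hval u b
  rw [h1, LinearIndependent.pair_iff]
  intro s t hst
  have e1 := congrFun hst ⟨1, Nat.coprime_one_left N⟩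
  have e2 := congrFun hst ⟨u, hu⟩
  simp only [Pi.add_apply, Pi.smul_apply, smul_eq_mul, Pi.zero_apply] at e1 e2
  have f1 : s * bn N 1 a + t * bn N 1 b = 0 := by
    field_simp at e1
    linear_combination e1
  have f2 : s * bn N u a + t * bn N u b = 0 := by
    field_simp at e2
    linear_combination e2
  have hd : ((bn N 1 a * bn N u b - bn N u a * bn N 1 b : ℤ) : ℚ) ≠ 0 := by
    exact_mod_cast sub_ne_zero.2 hdet
  push_cast at hd
  constructor
  · have h2 : s * ((bn N 1 a : ℚ) * bn N u b - bn N u a * bn N 1 b) = 0 := by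
      linear_combination (bn N u b : ℚ) * f1 - (bn N 1 b : ℚ) * f2
    exact (mul_eq_zero.1 h2).resolve_right hd
  · have h2 : t * ((bn N 1 a : ℚ) * bn N u b - bn N u a * bn N 1 b) = 0 := by
      linear_combination (bn N 1 a : ℚ) * f2 - (bn N u a : ℚ) * f1
    exact (mul_eq_zero.1 h2).resolve_right hd

/-- At most one exception at a level. -/
theorem two_values_gen {N : ℕ} (h2 : 2 < N) (h : HasInd N (N.totient / 2)) {a b : ℕ}
    (ha : 1 ≤ a) (hab : a < b) (hb : 2 * b < N) (h63 : ¬ (6 * a = N ∧ 3 * b = N)) :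
    AlgebraicIndependent ℚ ![Real.pi, Real.Gamma ((a : ℝ) / N)] ∨
      AlgebraicIndependent ℚ ![Real.pi, Real.Gamma ((b : ℝ) / N)] := by
  have hr : ∀ i : Fin 2, 1 ≤ (![a, b] : Fin 2 → ℕ) i ∧ (![a, b] : Fin 2 → ℕ) i < N := by
    intro i
    fin_cases i
    · exact ⟨ha, by change a < N; omega⟩
    · exact ⟨by change 1 ≤ b; omega, by change b < N; omega⟩
  have h1 := indep_fam N h2 h ![a, b] hr (pair_li_gen ha hab hb h63)
  have h3 := pi_or N ![a, b] hr h1 {0} {1} (by simp)
  rcases h3 with h3 | h3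
  · left
    have h4 := h3.comp (![none, some ⟨0, rfl⟩] : Fin 2 → Option ({0} : Set (Fin 2))) (by
      intro i j hij
      fin_cases i <;> fin_cases j <;> simp_all)
    convert h4 using 1
    funext i
    fin_cases i <;> simp [gf]
  · right
    have h4 := h3.comp (![none, some ⟨1, rfl⟩] : Fin 2 → Option ({1} : Set (Fin 2))) (by
      intro i j hij
      fin_cases i <;> fin_cases j <;> simp_all)
    convert h4 using 1
    funext i
    fin_cases i <;> simp [gf]

/-- **At most one exceptional rational number.**  If the ratios of every level are as independent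
as possible then `π` and `Γ (x)` are algebraically independent for all rational `x` in `(0, 1/2)`
with at most one exception (`1/6` and `1/3` counted as one). -/
theorem one_exception (hall : ∀ q : ℕ, 2 < q → HasInd q (q.totient / 2)) (x y : ℚ) (hx : 0 < x)
    (hxy : x < y) (hy : y < 1 / 2) (h63 : ¬ (x = 1 / 6 ∧ y = 1 / 3)) :
    AlgebraicIndependent ℚ ![Real.pi, Real.Gamma (x : ℝ)] ∨
      AlgebraicIndependent ℚ ![Real.pi, Real.Gamma (y : ℝ)] := by
  have hy0 : 0 < y := hx.trans hxy
  set N := x.den * y.den with hN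
  have hxd : 0 < x.den := x.den_pos
  have hyd : 0 < y.den := y.den_pos
  have hN0 : 0 < N := Nat.mul_pos hxd hyd
  have hxn : 0 < x.num := Rat.num_pos.2 hx
  have hyn : 0 < y.num := Rat.num_pos.2 hy0
  set a := x.num.toNat * y.den with ha
  set b := y.num.toNat * x.den with hb
  have hNq : (0 : ℚ) < N := by exact_mod_cast hN0
  have hax : (a : ℚ) / N = x := by
    have h1 : ((x.num.toNat : ℕ) : ℚ) = (x.num : ℚ) := by
      have : ((x.num.toNat : ℕ) : ℤ) = x.num := Int.toNat_of_nonneg hxn.le
      exact_mod_cast this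
    rw [ha, hN, Nat.cast_mul, Nat.cast_mul, h1]
    rw [mul_div_mul_right _ _ (by exact_mod_cast hyd.ne')]
    exact Rat.num_div_den x
  have hby : (b : ℚ) / N = y := by
    have h1 : ((y.num.toNat : ℕ) : ℚ) = (y.num : ℚ) := by
      have : ((y.num.toNat : ℕ) : ℤ) = y.num := Int.toNat_of_nonneg hyn.le
      exact_mod_cast this
    rw [hb, hN, mul_comm x.den, Nat.cast_mul, Nat.cast_mul, h1]
    rw [mul_div_mul_right _ _ (by exact_mod_cast hxd.ne')]
    exact Rat.num_div_den y
  have ha1 : 1 ≤ a := by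
    have : (0 : ℚ) < a := by
      have h1 : (a : ℚ) = x * N := by rw [← hax]; field_simp
      rw [h1]; positivity
    exact_mod_cast this
  have hab : a < b := by
    have h1 : (a : ℚ) = x * N := by rw [← hax]; field_simp
    have h2 : (b : ℚ) = y * N := by rw [← hby]; field_simp
    have : (a : ℚ) < b := by rw [h1, h2]; exact mul_lt_mul_of_pos_right hxy hNq
    exact_mod_cast this
  have hbN : 2 * b < N := by
    have h2 : (b : ℚ) = y * N := by rw [← hby]; field_simp
    have : 2 * (b : ℚ) < N := by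
      rw [h2]
      have := mul_lt_mul_of_pos_right hy hNq
      linarith
    exact_mod_cast this
  have h63' : ¬ (6 * a = N ∧ 3 * b = N) := by
    rintro ⟨h1, h2⟩
    apply h63
    have e1 : (6 : ℚ) * a = N := by exact_mod_cast h1
    have e2 : (3 : ℚ) * b = N := by exact_mod_cast h2
    refine ⟨?_, ?_⟩
    · rw [← hax, ← e1]
      have : (a : ℚ) ≠ 0 := by
        have : (0 : ℚ) < a := by exact_mod_cast ha1
        exact this.ne'
      field_simp
    · rw [← hby, ← e2]
      have : (b : ℚ) ≠ 0 := by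
        have : (0 : ℚ) < b := by exact_mod_cast (by omega : 0 < b)
        exact this.ne'
      field_simp
  have h := two_values_gen (by omega : 2 < N) (hall N (by omega)) ha1 hab hbN h63'
  have ex : ((a : ℝ) / N) = (x : ℝ) := by
    rw [← hax]; push_cast; rfl
  have ey : ((b : ℝ) / N) = (y : ℝ) := by
    rw [← hby]; push_cast; rfl
  rw [ex, ey] at h
  exact h

end Pool.Agent.Helper17.LR
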